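import Pool.Agent.X91.KT.Sph

set_option autoImplicit false

/-!
The estimates for arbitrary families of lines.
-/

open MeasureTheory Set ENNReal NNReal Metric Filter

namespace Pool.Agent.X91.KT

open Pool.Agent.H803R2.Kak Pool.Agent.H803R2.KakFTO Pool.Agent.TH426.Kt
open Pool.Agent.W46.HM (kmax)
open Pool.Agent.Y244.HM (WeakP StrongP strongP)
open Pool.Agent.Y244.WR (TubeQ weakQ)

variable {d : ℕ}

/-- The admissible slopes `c` in `ℝ^(d+1)`. -/
def Slope (d : ℕ) (c : ℝ) : Prop :=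
  (2 ≤ d ∧ 2 * (d : ℝ) / (d + 1) < c) ∨ (9 ≤ d ∧ 1 < c ∧ ∃ x : ℝ, 0 ≤ x ∧ x ≤ 1 ∧
    0 < (d : ℝ) * (c ^ 3 - 4 * c + 2) + x * (c * (3 * c - 1 - c ^ 2)) ∧
    4 * c ^ 2 + 5 * c - 4 + x * (3 * c ^ 2 + 1) < (d : ℝ) * (c ^ 2 - 1) + x * (3 * c - 1 - c ^ 2))

theorem Slope.one_lt {c : ℝ} (h : Slope d c) : 1 < c ∧ 2 ≤ d := by
  rcases h with ⟨h1, h2⟩ | ⟨h1, h2, _⟩
  · refine ⟨?_, h1⟩
    have h3 : (2 : ℝ) ≤ d := by exact_mod_cast h1
    refine lt_of_le_of_lt ?_ h2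
    rw [le_div_iff₀ (by positivity)]
    linarith
  · exact ⟨h2, by omega⟩

theorem Slope.tube {c : ℝ} (h : Slope d c) : Pool.Agent.Y249.AC.TubeB d c := by
  rcases h with ⟨h1, h2⟩ | ⟨h1, h2, x, hx0, hx1, hg, hk⟩
  · exact Pool.Agent.Y249.AC.tubeB_wolff h1 h2
  · exact Pool.Agent.Y249.AC.tubeB_mix h1 ⟨hx0, hx1, h2, hg, hk⟩

theorem Slope.strong {c : ℝ} (h : Slope d c) : StrongP d c := by
  obtain ⟨hc, hd⟩ := h.one_lt
  obtain ⟨C, hC, hF⟩ := h.tube
  have hT : TubeQ d (1 + c / d) := ⟨C, hC, hF⟩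
  have h1 := weakQ (by omega) (by linarith) hT Pool.Agent.W131.HM.CAP Pool.Agent.W131.HM.VOL
  exact strongP (by omega) hc h1

theorem finrank_space (d : ℕ) : Module.finrank ℝ (Space d) = d + 1 := by
  rw [LinearEquiv.finrank_eq (WithLp.linearEquiv 2 ℝ (Vec d × ℝ))]
  simp

/-- An isometry. -/
noncomputable def iso (d : ℕ) : Space d ≃ₗᵢ[ℝ] EuclideanSpace ℝ (Fin (d + 1)) :=
  ((stdOrthonormalBasis ℝ (Space d)).reindex (finCongr (finrank_space d))).repr

theorem preimage_tube (δ : ℝ) (e a : Space d) :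
    iso d ⁻¹' (Pool.Agent.W46.KK.tube δ (iso d a) (iso d e)) = tube δ e a := by
  ext y
  simp only [Pool.Agent.W46.KK.tube, tube, mem_preimage, mem_ofPred_eq]
  rw [← map_sub, LinearIsometryEquiv.inner_map_map, ← map_smul, ← map_sub,
    LinearIsometryEquiv.norm_map]

theorem lineMax_le_kmax {δ : ℝ} (b : Vec d → Vec d) (f : Space d → ℝ) (v : Vec d) :
    lineMax δ b f v ≤ kmax δ (fun x => ‖f ((iso d).symm x)‖ₑ) (iso d (dir v)) := by
  unfold lineMax
  apply iSup_le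
  intro s
  have hmp : MeasurePreserving (iso d) volume volume := (iso d).measurePreserving
  have hme : MeasurableEmbedding (iso d) := (iso d).toHomeomorph.measurableEmbedding
  have h1 : volume (tube δ (dir v) (linePt b v s)) =
      volume (Pool.Agent.W46.KK.tube δ (iso d (linePt b v s)) (iso d (dir v))) := by
    rw [← preimage_tube, hmp.measure_preimage_emb hme]
  have h2 : ∫⁻ y in tube δ (dir v) (linePt b v s), ‖f y‖ₑ =
      ∫⁻ y in Pool.Agent.W46.KK.tube δ (iso d (linePt b v s)) (iso d (dir v)),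
        ‖f ((iso d).symm y)‖ₑ := by
    rw [← preimage_tube, ← hmp.setLIntegral_comp_preimage_emb hme]
    simp
  rw [h1, h2]
  unfold kmax
  exact le_iSup (fun a => (volume (Pool.Agent.W46.KK.tube δ a (iso d (dir v))))⁻¹ *
    ∫⁻ y in Pool.Agent.W46.KK.tube δ a (iso d (dir v)), ‖f ((iso d).symm y)‖ₑ)
      (iso d (linePt b v s))

/-- The maximal estimate for arbitrary families of lines, below the critical exponent. -/
theorem any_lmb {c : ℝ} (h : Slope d c) : ∃ C : ℝ, 0 < C ∧ ∀ (T : Set ℝ) (δ : ℝ)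
    (B : Set (Vec d)) (b : Vec d → Vec d), 0 < δ → δ < 1 → B ⊆ closedBall 0 1 →
    LMb δ T 1 (1 + (d : ℝ) / c) (ENNReal.ofReal (C * δ ^ (-((d : ℝ) - (d : ℝ) / c)))) B b := by
  obtain ⟨C, hC, hs⟩ := h.strong
  refine ⟨2 ^ (d + 1) * C, by positivity, ?_⟩
  intro T δ B b hδ hδ1 hB f hf _
  have hmp : MeasurePreserving (iso d) volume volume := (iso d).measurePreserving
  have hme : MeasurableEmbedding (iso d) := (iso d).toHomeomorph.measurableEmbedding
  have hfm : Measurable (fun x => ‖f ((iso d).symm x)‖ₑ) :=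
    (hf.comp (iso d).symm.continuous.measurable).enorm
  have hc := h.one_lt.1
  have hp : 0 < 1 + (d : ℝ) / c := by
    have : 0 < c := by linarith
    positivity
  have h1 := hs δ hδ hδ1 _ hfm.aemeasurable
  have h2 : ∫⁻ y : EuclideanSpace ℝ (Fin (d + 1)), ‖f ((iso d).symm y)‖ₑ ^ (1 + (d : ℝ) / c) =
      ∫⁻ y, ‖f y‖ₑ ^ (1 + (d : ℝ) / c) := by
    rw [← hmp.lintegral_comp_emb hme]
    simp
  rw [h2] at h1
  rw [one_mul, ENNReal.rpow_one]
  calc ∫⁻ v in B, lineMax δ b f v ^ (1 + (d : ℝ) / c)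
      ≤ ∫⁻ v in B, kmax δ (fun x => ‖f ((iso d).symm x)‖ₑ) (phi (iso d) v) ^ (1 + (d : ℝ) / c) := by
        apply lintegral_mono
        intro v
        exact ENNReal.rpow_le_rpow (lineMax_le_kmax b f v) hp.le
    _ ≤ _ := lint_le (iso d) hB
        (fun e => kmax δ (fun x => ‖f ((iso d).symm x)‖ₑ) e ^ (1 + (d : ℝ) / c))
    _ ≤ 2 ^ (d + 1) * (ENNReal.ofReal (C * δ ^ (-((d : ℝ) - (d : ℝ) / c))) *
          ∫⁻ y, ‖f y‖ₑ ^ (1 + (d : ℝ) / c)) := by gcongr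
    _ = _ := by
        have e1 : (2 ^ (d + 1) : ℝ≥0∞) = ENNReal.ofReal (2 ^ (d + 1)) := by
          rw [ENNReal.ofReal_pow (by norm_num)]; simp
        rw [← mul_assoc, e1, ← ENNReal.ofReal_mul (by positivity), mul_assoc]

end Pool.Agent.X91.KT
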