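import Pool.Agent.X91.KT.Any

set_option autoImplicit false

/-!
Towers of families of lines with stages of arbitrary exponents.
-/

open MeasureTheory Set ENNReal NNReal Metric Filter

namespace Pool.Agent.X91.KT

open Pool.Agent.H803R2.Kak Pool.Agent.H803R2.KakFTO Pool.Agent.TH426.Kt

variable {d : ℕ}

/-- Towers: from the windows to the maximal function, all exponents. -/
theorem tower_lmb' {𝓑 : (d : ℕ) → ℝ → ℝ≥0 → Set (Vec d) → (Vec d → Vec d) → Prop}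
    (h𝓑 : RegBase 𝓑) {δ : ℝ} (hδ : 0 < δ) (hδ1 : δ < 1) {T : Set ℝ} (hT : MeasurableSet T)
    {c0 : ℕ → ℝ≥0∞} (hc0 : ∀ n, c0 n ≠ ∞) {Λ μ : ℝ≥0∞} (hΛ : Λ ≠ 0) (hΛt : Λ ≠ ∞) (hμ : μ ≠ 0)
    (hμt : μ ≠ ∞) (hb : ∀ k : ℤ, BaseBd 𝓑 (3 * δ) (win T k) 1 c0 Λ μ) {d : ℕ} {p : ℝ} {N : ℝ≥0}
    {B : Set (Vec d)} {b b' : Vec d → Vec d} (h : KTower 𝓑 d p N B b)
    (hbb : ∀ v ∈ B, ‖b' v - b v‖ ≤ δ) :
    LMb δ T 1 p (cb d ^ ((d : ℝ) + 1) * cc c0 (KK 1) d * N * Λ ^ d * μ ^ ((d : ℝ) + 1 - p)) B b' := by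
  rcases B.eq_empty_or_nonempty with hne | hne
  · rw [hne]
    intro f _ _
    simp
  obtain ⟨hp1, hp2⟩ := h.expo h𝓑 hne
  obtain ⟨hB, hB1, hbm⟩ := h.meas h𝓑
  have hw : ∀ k : ℤ, Wb (3 * δ) (win T k) 1 p
      (cc c0 (KK 1) d * N * Λ ^ d * μ ^ ((d : ℝ) + 1 - p)) B b := fun k =>
    h.bound h𝓑 (r := 3 * δ) (by linarith) (J := win T k) one_pos hΛ hΛt hμ hμt hc0 (hb k)
  have key := LMb_of_Wb hδ hδ1 hT le_rfl (by linarith) hB hB1 hbm hbb hw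
  intro f hf hfT
  refine (key f hf hfT).trans (mul_le_mul_left ?_ _)
  have h1 : cb d ^ ((1 : ℝ) * p) ≤ cb d ^ ((d : ℝ) + 1) := by
    apply ENNReal.rpow_le_rpow_of_exponent_le
    · unfold cb
      have h2 : (1 : ℝ≥0∞) ≤ 16 ^ d := one_le_pow₀ (by norm_num)
      calc (1 : ℝ≥0∞) = 1 * 1 := by norm_num
        _ ≤ 52 * 16 ^ d := by
            gcongr
            norm_num
    · linarith
  calc cb d ^ ((1 : ℝ) * p) * (cc c0 (KK 1) d * N * Λ ^ d * μ ^ ((d : ℝ) + 1 - p))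
      ≤ cb d ^ ((d : ℝ) + 1) * (cc c0 (KK 1) d * N * Λ ^ d * μ ^ ((d : ℝ) + 1 - p)) := by gcongr
    _ = _ := by ring

/-- The loss `1/δ`. -/
noncomputable def Mu (δ : ℝ) : ℝ≥0∞ := ENNReal.ofReal δ⁻¹

theorem Mu_rpow {δ : ℝ} (hδ : 0 < δ) {x : ℝ} (hx : 0 ≤ x) :
    Mu δ ^ x = ENNReal.ofReal (δ ^ (-x)) := by
  unfold Mu
  rw [ENNReal.ofReal_rpow_of_nonneg (by positivity) hx, Real.inv_rpow hδ.le, Real.rpow_neg hδ.le]

theorem Mu_ne_zero {δ : ℝ} (hδ : 0 < δ) : Mu δ ≠ 0 := by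
  unfold Mu
  simpa using hδ

theorem Mu_ne_top (δ : ℝ) : Mu δ ≠ ∞ := ENNReal.ofReal_ne_top

/-- The classes of stages. -/
def Gen (T : Set ℝ) (A : ℕ → ℝ) (c : ℝ → ℕ → ℝ≥0) (s : ℕ → ℝ)
    (d : ℕ) (p : ℝ) (M : ℝ≥0) (B : Set (Vec d)) (b : Vec d → Vec d) : Prop :=
  AllB T A d p M B b ∨ ((MeasurableSet B ∧ B ⊆ closedBall 0 1 ∧ Measurable b) ∧
    ((Slope d (s d) ∧ p = 1 + (d : ℝ) / s d ∧ M = 1) ∨ (1 ≤ d ∧ 1 ≤ p ∧ p ≤ d + 1 ∧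
      ∀ ε : ℝ, 0 < ε → ∀ δ : ℝ, 0 < δ → δ < 1 →
        LMb δ T 1 p (c ε d * M * Pw ε δ * Mu δ ^ ((d : ℝ) + 1 - p)) B b)))

theorem slope_expo {c : ℝ} (h : Slope d c) : 1 ≤ 1 + (d : ℝ) / c ∧ 1 + (d : ℝ) / c ≤ d + 1 := by
  have hc := h.one_lt.1
  have h0 : (0 : ℝ) ≤ d := Nat.cast_nonneg d
  have h1 : 0 ≤ (d : ℝ) / c := div_nonneg h0 (by linarith)
  have h2 : (d : ℝ) / c ≤ d := div_le_self h0 hc.le
  constructor <;> linarith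

theorem gen_reg (T : Set ℝ) (A : ℕ → ℝ) (c : ℝ → ℕ → ℝ≥0) (s : ℕ → ℝ) : RegBase (Gen T A c s) := by
  constructor
  · intro d p N B b h
    rcases h with h | h
    · exact (allB_reg T A).meas h
    · exact h.1
  · intro d p N B b h
    rcases h with h | ⟨_, ⟨h1, rfl, _⟩ | ⟨_, h1, h2, _⟩⟩
    · exact (allB_reg T A).expo h
    · exact slope_expo h1
    · exact ⟨h1, h2⟩

/-- The constant of the transfer to windows. -/
noncomputable def tw (d : ℕ) : ℝ≥0∞ := (2 ^ d) ^ ((d : ℝ) + 1) * (3 * 8 ^ d) ^ ((d : ℝ) + 1)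

theorem tw_ne_top (d : ℕ) : tw d ≠ ∞ := by
  have h0 : (0 : ℝ) ≤ (d : ℝ) + 1 := by positivity
  apply ENNReal.mul_ne_top
  · exact ENNReal.rpow_ne_top_of_nonneg h0 (ENNReal.pow_ne_top (by simp))
  · exact ENNReal.rpow_ne_top_of_nonneg h0
      (ENNReal.mul_ne_top (by simp) (ENNReal.pow_ne_top (by simp)))

theorem tw_le {p : ℝ} (hp : p ≤ d + 1) (X : ℝ≥0∞) :
    (2 ^ d) ^ ((1 : ℝ) * p) * ((3 * 8 ^ d) ^ ((1 : ℝ) * p) * X) ≤ tw d * X := by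
  unfold tw
  rw [← mul_assoc, one_mul]
  have h2 : (1 : ℝ≥0∞) ≤ 2 ^ d := one_le_pow₀ (by norm_num)
  have h8 : (1 : ℝ≥0∞) ≤ 8 ^ d := one_le_pow₀ (by norm_num)
  have h3 : (1 : ℝ≥0∞) ≤ 3 * 8 ^ d := by
    calc (1 : ℝ≥0∞) = 1 * 1 := by norm_num
      _ ≤ _ := by
          gcongr
          norm_num
  gcongr

theorem gen_bd (A : ℕ → ℝ) (c : ℝ → ℕ → ℝ≥0) (s : ℕ → ℝ) (ε : ℝ) (hε : 0 < ε) :
    ∃ c' : ℕ → ℝ≥0∞, (∀ d, c' d ≠ ∞) ∧ ∀ (T : Set ℝ) (δ : ℝ) (k : ℤ), MeasurableSet T → 0 < δ →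
      δ < 1 → BaseBd (Gen T A c s) (3 * δ) (win T k) 1 c' (Pw ε δ) (Mu δ) := by
  obtain ⟨c2, hc2, hbd⟩ := allB_bd A ε hε
  choose! C hC hany using fun (d : ℕ) (hs : Slope d (s d)) => any_lmb hs
  refine ⟨fun d => c2 d + tw d * ENNReal.ofReal (C d) + tw d * c ε d, fun d => ?_, ?_⟩
  · exact ENNReal.add_ne_top.2 ⟨ENNReal.add_ne_top.2 ⟨hc2 d,
      ENNReal.mul_ne_top (tw_ne_top d) ENNReal.ofReal_ne_top⟩,
      ENNReal.mul_ne_top (tw_ne_top d) ENNReal.coe_ne_top⟩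
  intro T δ k hT hδ hδ1 d p M B b hb
  have h1P : 1 ≤ Pw ε δ := one_le_Pw hε hδ hδ1
  have h1P' : 1 ≤ Pw ε δ ^ d := one_le_pow₀ h1P
  have h0 : (0 : ℝ) ≤ d := Nat.cast_nonneg d
  rcases hb with hb | ⟨⟨hB, hB1, hbm⟩, ⟨hs, rfl, rfl⟩ | ⟨hd, hp1, hp2, hl⟩⟩
  · have hpe := (allB_reg T A).expo hb
    refine (hbd T δ k hT hδ hδ1 hb).mono ?_ subset_rfl
    rw [ENNReal.one_rpow, mul_one]
    have h4 : 1 ≤ Mu δ ^ ((d : ℝ) + 1 - p) := by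
      rw [Mu_rpow hδ (by linarith)]
      rw [ENNReal.one_le_ofReal]
      exact Real.one_le_rpow_of_pos_of_le_one_of_nonpos hδ hδ1.le (by linarith)
    calc c2 d * M * Pw ε δ ^ d = c2 d * M * Pw ε δ ^ d * 1 := by rw [mul_one]
      _ ≤ _ := by
          gcongr
          show c2 d ≤ c2 d + tw d * ENNReal.ofReal (C d) + tw d * c ε d
          rw [add_assoc]
          exact le_self_add
  · obtain ⟨hp1, hp2⟩ := slope_expo hs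
    have hl := hany d hs T δ B b hδ hδ1 hB1
    refine (wb_of_lmb hδ hδ1 hT zero_le_one (by linarith) (by linarith) hB hB1 hbm hl k).mono ?_
      subset_rfl
    refine (tw_le hp2 _).trans ?_
    have e : (d : ℝ) + 1 - (1 + (d : ℝ) / s d) = (d : ℝ) - (d : ℝ) / s d := by ring
    rw [e, Mu_rpow hδ (by linarith), ENNReal.ofReal_mul (hC d hs).le]
    calc tw d * (ENNReal.ofReal (C d) * ENNReal.ofReal (δ ^ (-((d : ℝ) - (d : ℝ) / s d))))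
        = (tw d * ENNReal.ofReal (C d)) * (1 : ℝ≥0) * 1 *
          ENNReal.ofReal (δ ^ (-((d : ℝ) - (d : ℝ) / s d))) := by
          simp only [ENNReal.coe_one, mul_one]; ring
      _ ≤ _ := by
          gcongr
          calc tw d * ENNReal.ofReal (C d) ≤ c2 d + tw d * ENNReal.ofReal (C d) := le_add_self
            _ ≤ _ := le_self_add
  · refine (wb_of_lmb hδ hδ1 hT zero_le_one (by linarith) (by linarith) hB hB1 hbm
      (hl ε hε δ hδ hδ1) k).mono ?_ subset_rfl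
    refine (tw_le hp2 _).trans ?_
    have h1 : Pw ε δ ≤ Pw ε δ ^ d := le_self_pow₀ h1P (by omega)
    calc tw d * (c ε d * M * Pw ε δ * Mu δ ^ ((d : ℝ) + 1 - p))
        = (tw d * c ε d) * M * Pw ε δ * Mu δ ^ ((d : ℝ) + 1 - p) := by ring
      _ ≤ _ := by
          gcongr
          exact le_add_self

end Pool.Agent.X91.KT
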