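import Mathlib

set_option autoImplicit false

/-!
Digits: planar families of lines whose slices have measure `O(1/N)` at every height in `[-1, 2]`.
-/

open MeasureTheory Set

namespace Pool.Agent.X91.LB

/-- The heights of the construction. -/
noncomputable def hgt (N j : ℕ) : ℝ := -1 + 6 * j / N

/-- The position at height `t` of the line with digits `κ`. -/
noncomputable def pos (N : ℕ) (κ : ℕ → Fin 4) (t : ℝ) : ℝ :=
  ∑ j ∈ Finset.range N, (t - hgt N j) * ((κ j : ℕ) : ℝ) * (1 / 4) ^ (j + 1)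

/-- The slice at height `t`. -/
def Gs (N : ℕ) (r t : ℝ) : Set ℝ := {x | ∃ κ : ℕ → Fin 4, |x - pos N κ t| ≤ r}

theorem tail_sum (m k : ℕ) :
    ∑ j ∈ Finset.Ico m (m + k), (((j - m : ℕ) : ℝ) + 1) * (1 / 4 : ℝ) ^ (j + 1) ≤
      (1 / 4) ^ m * (1 - (1 / 2) ^ k) := by
  induction k with
  | zero => simp
  | succ k ih =>
    rw [← add_assoc, Finset.sum_Ico_succ_top (by omega)]
    have h1 : m + k - m = k := by omega
    rw [h1]
    have h2 : ((k : ℝ) + 1) * (1 / 4 : ℝ) ^ (m + k + 1) ≤ (1 / 4) ^ m * (1 / 2) ^ (k + 1) := by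
      have e1 : (1 / 4 : ℝ) ^ (m + k + 1) = (1 / 4) ^ m * ((1 / 2) ^ (k + 1) * (1 / 2) ^ (k + 1)) := by
        rw [add_assoc, pow_add, ← mul_pow]
        norm_num
      have h3 : ((k : ℝ) + 1) * (1 / 2) ^ (k + 1) ≤ 1 := by
        have h4 : k + 1 < 2 ^ (k + 1) := Nat.lt_two_pow_self
        have h5 : ((k : ℝ) + 1) ≤ 2 ^ (k + 1) := by exact_mod_cast h4.le
        calc ((k : ℝ) + 1) * (1 / 2) ^ (k + 1) ≤ 2 ^ (k + 1) * (1 / 2) ^ (k + 1) := by gcongr
          _ = 1 := by rw [← mul_pow]; norm_num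
      have h6 : (0 : ℝ) ≤ (1 / 4) ^ m * (1 / 2) ^ (k + 1) := by positivity
      calc ((k : ℝ) + 1) * (1 / 4 : ℝ) ^ (m + k + 1)
          = ((1 / 4) ^ m * (1 / 2) ^ (k + 1)) * (((k : ℝ) + 1) * (1 / 2) ^ (k + 1)) := by
            rw [e1]; ring
        _ ≤ ((1 / 4) ^ m * (1 / 2) ^ (k + 1)) * 1 := by gcongr
        _ = _ := by ring
    have h7 : (1 / 4 : ℝ) ^ m * (1 - (1 / 2) ^ (k + 1)) =
        (1 / 4) ^ m * (1 - (1 / 2) ^ k) + (1 / 4) ^ m * (1 / 2) ^ (k + 1) := by ring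
    rw [h7]
    linarith

/-- The part of `pos` from the first `m` digits. -/
noncomputable def ctr (N m : ℕ) (κ : Fin m → Fin 4) (t : ℝ) : ℝ :=
  ∑ j : Fin m, (t - hgt N j) * ((κ j : ℕ) : ℝ) * (1 / 4) ^ ((j : ℕ) + 1)

theorem near_ctr {N m : ℕ} (hN : 0 < N) (hm : m ≤ N) {t : ℝ} (h1 : (m : ℝ) ≤ (t + 1) * N / 6)
    (h2 : (t + 1) * N / 6 < m + 1) (κ : ℕ → Fin 4) :
    |pos N κ t - ctr N m (fun j => κ j) t| ≤ (1 / 4) ^ m * (18 / N) := by
  have hN' : (0 : ℝ) < N := by exact_mod_cast hN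
  have e1 : pos N κ t - ctr N m (fun j => κ j) t =
      ∑ j ∈ Finset.Ico m N, (t - hgt N j) * ((κ j : ℕ) : ℝ) * (1 / 4) ^ (j + 1) := by
    unfold pos ctr
    rw [Finset.range_eq_Ico, ← Finset.sum_Ico_consecutive _ (Nat.zero_le m) hm,
      ← Finset.range_eq_Ico, Finset.sum_range]
    ring
  rw [e1]
  refine (Finset.abs_sum_le_sum_abs _ _).trans ?_
  have h3 : ∀ j ∈ Finset.Ico m N, |(t - hgt N j) * ((κ j : ℕ) : ℝ) * (1 / 4) ^ (j + 1)| ≤
      18 / N * ((((j - m : ℕ) : ℝ) + 1) * (1 / 4 : ℝ) ^ (j + 1)) := by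
    intro j hj
    rw [Finset.mem_Ico] at hj
    rw [abs_mul, abs_mul, abs_of_nonneg (by positivity : (0 : ℝ) ≤ (1 / 4) ^ (j + 1)),
      abs_of_nonneg (by positivity : (0 : ℝ) ≤ ((κ j : ℕ) : ℝ))]
    have h4 : ((κ j : ℕ) : ℝ) ≤ 3 := by
      have := (κ j).isLt
      have h5 : (κ j : ℕ) ≤ 3 := by omega
      exact_mod_cast h5
    have h6 : |t - hgt N j| ≤ 6 / N * (((j - m : ℕ) : ℝ) + 1) := by
      unfold hgt
      have e2 : t - (-1 + 6 * (j : ℝ) / N) = 6 / N * ((t + 1) * N / 6 - j) := by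
        field_simp
        ring
      rw [e2, abs_mul, abs_of_pos (by positivity : (0 : ℝ) < 6 / N), Nat.cast_sub hj.1]
      gcongr
      rw [abs_le]
      have hjm : (m : ℝ) ≤ j := by exact_mod_cast hj.1
      constructor <;> linarith
    calc |t - hgt N j| * ((κ j : ℕ) : ℝ) * (1 / 4) ^ (j + 1)
        ≤ (6 / N * (((j - m : ℕ) : ℝ) + 1)) * 3 * (1 / 4) ^ (j + 1) := by gcongr
      _ = _ := by ring
  refine (Finset.sum_le_sum h3).trans ?_
  rw [← Finset.mul_sum]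
  obtain ⟨k, rfl⟩ := Nat.exists_eq_add_of_le hm
  have h8 := tail_sum m k
  have h9 : (1 / 4 : ℝ) ^ m * (1 - (1 / 2) ^ k) ≤ (1 / 4) ^ m := by
    have : (0 : ℝ) ≤ (1 / 2) ^ k := by positivity
    have h10 : (0 : ℝ) ≤ (1 / 4) ^ m := by positivity
    nlinarith
  calc 18 / ((m + k : ℕ) : ℝ) * ∑ j ∈ Finset.Ico m (m + k),
        (((j - m : ℕ) : ℝ) + 1) * (1 / 4 : ℝ) ^ (j + 1)
      ≤ 18 / ((m + k : ℕ) : ℝ) * (1 / 4) ^ m := by
        gcongr
        exact h8.trans h9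
    _ = _ := by ring

/-- The slices are small at every height in `[-1, 2]`. -/
theorem vol_Gs {N : ℕ} (hN : 0 < N) {δ t : ℝ} (hδ : 0 < δ) (hδN : δ ≤ 4 * (1 / 4) ^ N)
    (ht1 : -1 ≤ t) (ht2 : t ≤ 2) : volume (Gs N (4 * δ) t) ≤ ENNReal.ofReal (68 / N) := by
  have hN' : (0 : ℝ) < N := by exact_mod_cast hN
  have hnn : 0 ≤ (t + 1) * N / 6 := by
    have : 0 ≤ t + 1 := by linarith
    positivity
  set m : ℕ := ⌊(t + 1) * N / 6⌋₊ with hm
  have h1 : (m : ℝ) ≤ (t + 1) * N / 6 := Nat.floor_le hnn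
  have h2 : (t + 1) * N / 6 < m + 1 := Nat.lt_floor_add_one _
  have h3 : 2 * m ≤ N := by
    have h4 : 2 * (m : ℝ) ≤ N := by
      have : (t + 1) * N ≤ 3 * N := by gcongr; linarith
      linarith
    exact_mod_cast h4
  set ρ : ℝ := (1 / 4) ^ m * (18 / N) + 4 * δ with hρ
  have hsub : Gs N (4 * δ) t ⊆ ⋃ κ : Fin m → Fin 4, Metric.closedBall (ctr N m κ t) ρ := by
    rintro x ⟨κ, hκ⟩
    rw [mem_iUnion]
    refine ⟨fun j => κ j, ?_⟩
    rw [Metric.mem_closedBall, Real.dist_eq]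
    have h5 := near_ctr hN (by omega : m ≤ N) h1 h2 κ
    calc |x - ctr N m (fun j => κ j) t|
        = |(x - pos N κ t) + (pos N κ t - ctr N m (fun j => κ j) t)| := by congr 1; ring
      _ ≤ _ := abs_add_le _ _
      _ ≤ _ := by rw [hρ]; linarith
  have hρ0 : 0 ≤ ρ := by positivity
  calc volume (Gs N (4 * δ) t) ≤ volume (⋃ κ : Fin m → Fin 4, Metric.closedBall (ctr N m κ t) ρ) :=
        measure_mono hsub
    _ ≤ ∑ κ : Fin m → Fin 4, volume (Metric.closedBall (ctr N m κ t) ρ) := measure_iUnion_fintype_le _ _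
    _ = ENNReal.ofReal (4 ^ m * (2 * ρ)) := by
        simp only [Real.volume_closedBall]
        rw [Finset.sum_const, Finset.card_univ, nsmul_eq_mul,
          ENNReal.ofReal_mul (p := (4 : ℝ) ^ m) (by positivity)]
        congr 1
        rw [ENNReal.ofReal_pow (by norm_num)]
        simp
    _ ≤ _ := by
        apply ENNReal.ofReal_le_ofReal
        have e1 : (4 : ℝ) ^ m * (1 / 4) ^ m = 1 := by rw [← mul_pow]; norm_num
        have e2 : (4 : ℝ) ^ m * (2 * ρ) = 36 / N + 8 * (4 ^ m * δ) := by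
          rw [hρ]
          calc (4 : ℝ) ^ m * (2 * ((1 / 4) ^ m * (18 / N) + 4 * δ))
              = (4 ^ m * (1 / 4) ^ m) * (36 / N) + 8 * (4 ^ m * δ) := by ring
            _ = _ := by rw [e1, one_mul]
        rw [e2]
        have h6 : (4 : ℝ) ^ m * δ ≤ 4 / N := by
          have h7 : (4 : ℝ) ^ m ≤ 2 ^ N := by
            calc (4 : ℝ) ^ m = 2 ^ (2 * m) := by rw [pow_mul]; norm_num
              _ ≤ 2 ^ N := pow_le_pow_right₀ (by norm_num) h3
          have h8 : ((N : ℝ)) ≤ 2 ^ N := by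
            have : N < 2 ^ N := Nat.lt_two_pow_self
            exact_mod_cast this.le
          have e3 : (2 : ℝ) ^ N * (4 * (1 / 4) ^ N) = 4 * (1 / 2) ^ N := by
            have : (1 / 4 : ℝ) ^ N = (1 / 2) ^ N * (1 / 2) ^ N := by rw [← mul_pow]; norm_num
            rw [this]
            have h9 : (2 : ℝ) ^ N * (1 / 2) ^ N = 1 := by rw [← mul_pow]; norm_num
            calc (2 : ℝ) ^ N * (4 * ((1 / 2) ^ N * (1 / 2) ^ N))
                = (2 ^ N * (1 / 2) ^ N) * (4 * (1 / 2) ^ N) := by ring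
              _ = _ := by rw [h9, one_mul]
          calc (4 : ℝ) ^ m * δ ≤ 2 ^ N * (4 * (1 / 4) ^ N) := by gcongr
            _ = 4 * (1 / 2) ^ N := e3
            _ ≤ 4 / N := by
                rw [one_div, inv_pow, div_eq_mul_inv]
                gcongr
        have h10 : 36 / (N : ℝ) + 8 * (4 / N) = 68 / N := by ring
        linarith

/-- The digits of a number. -/
noncomputable def dig (u : ℝ) (j : ℕ) : Fin 4 := ⟨⌊4 ^ (j + 1) * u⌋₊ % 4, Nat.mod_lt _ (by norm_num)⟩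

theorem sum_dig {u : ℝ} (hu1 : u < 1) (N : ℕ) :
    ∑ j ∈ Finset.range N, ((dig u j : ℕ) : ℝ) * (1 / 4) ^ (j + 1) = ⌊4 ^ N * u⌋₊ * (1 / 4) ^ N := by
  induction N with
  | zero =>
    have : ⌊u⌋₊ = 0 := Nat.floor_eq_zero.2 hu1
    simp [this]
  | succ N ih =>
    rw [Finset.sum_range_succ, ih]
    have h1 : ⌊4 ^ N * u⌋₊ = ⌊4 ^ (N + 1) * u⌋₊ / 4 := by
      have h2 := Nat.floor_div_natCast (4 ^ (N + 1) * u) 4
      rw [← h2]
      congr 1
      push_cast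
      ring
    have h3 := Nat.div_add_mod ⌊4 ^ (N + 1) * u⌋₊ 4
    have h4 : (⌊4 ^ (N + 1) * u⌋₊ : ℝ) = 4 * (⌊4 ^ N * u⌋₊ : ℝ) + ((dig u N : ℕ) : ℝ) := by
      rw [h1]
      unfold dig
      exact_mod_cast h3.symm
    rw [h4]
    rw [pow_succ (1 / 4 : ℝ) N]
    ring

/-- The positions. -/
noncomputable def bet (N : ℕ) (u : ℝ) : ℝ :=
  -∑ j ∈ Finset.range N, hgt N j * ((dig u j : ℕ) : ℝ) * (1 / 4) ^ (j + 1)

theorem measurable_bet (N : ℕ) : Measurable (bet N) := by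
  unfold bet
  apply Measurable.neg
  apply Finset.measurable_sum
  intro j _
  apply Measurable.mul_const
  apply Measurable.const_mul
  have h1 : Measurable fun u : ℝ => ⌊4 ^ (j + 1) * u⌋₊ := Nat.measurable_floor.comp (by fun_prop)
  have h2 : Measurable fun n : ℕ => (((n % 4 : ℕ)) : ℝ) := measurable_from_top
  exact h2.comp h1

theorem bet_near {N : ℕ} {u t δ : ℝ} (hu : 0 ≤ u) (hu1 : u < 1) (ht : |t| ≤ 2)
    (hδ : (1 / 4) ^ N ≤ δ) : |bet N u + t * u - pos N (dig u) t| ≤ 2 * δ := by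
  have e1 : bet N u + t * u - pos N (dig u) t =
      t * (u - ∑ j ∈ Finset.range N, ((dig u j : ℕ) : ℝ) * (1 / 4) ^ (j + 1)) := by
    unfold bet pos
    rw [mul_sub, Finset.mul_sum, ← sub_eq_zero]
    have : ∑ j ∈ Finset.range N, (t - hgt N j) * ((dig u j : ℕ) : ℝ) * (1 / 4) ^ (j + 1) =
        ∑ j ∈ Finset.range N, t * (((dig u j : ℕ) : ℝ) * (1 / 4) ^ (j + 1)) -
        ∑ j ∈ Finset.range N, hgt N j * ((dig u j : ℕ) : ℝ) * (1 / 4) ^ (j + 1) := by
      rw [← Finset.sum_sub_distrib]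
      exact Finset.sum_congr rfl fun j _ => by ring
    rw [this]
    ring
  rw [e1, sum_dig hu1, abs_mul]
  have h4 : (4 : ℝ) ^ N * (1 / 4) ^ N = 1 := by rw [← mul_pow]; norm_num
  have h1 := Nat.floor_le (by positivity : (0 : ℝ) ≤ 4 ^ N * u)
  have h2 := Nat.lt_floor_add_one ((4 : ℝ) ^ N * u)
  have hp : (0 : ℝ) < (1 / 4) ^ N := by positivity
  have h3 : |u - ⌊4 ^ N * u⌋₊ * (1 / 4) ^ N| ≤ (1 / 4) ^ N := by
    have e2 : u = (4 ^ N * u) * (1 / 4) ^ N := by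
      calc u = (4 ^ N * (1 / 4) ^ N) * u := by rw [h4, one_mul]
        _ = _ := by ring
    rw [abs_le]
    constructor
    · nlinarith
    · nlinarith
  calc |t| * |u - ⌊4 ^ N * u⌋₊ * (1 / 4) ^ N| ≤ 2 * δ := by
        gcongr
        exact h3.trans hδ

end Pool.Agent.X91.LB
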