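import Pool.Agent.X91.KT.Dig
import Pool.Agent.X91.KT.Any

set_option autoImplicit false

/-!
Small unions of tubes in all directions: products of planar families.
-/

open MeasureTheory Set ENNReal Metric

namespace Pool.Agent.X91.LB

open Pool.Agent.H803R2.KakFTO

variable {d : ℕ}

/-- Extension of finitely many digits. -/
def ext (N : ℕ) (κ : Fin N → Fin 4) (j : ℕ) : Fin 4 := if h : j < N then κ ⟨j, h⟩ else 0

theorem pos_ext (N : ℕ) (κ : ℕ → Fin 4) (t : ℝ) : pos N (ext N fun j => κ j) t = pos N κ t := by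
  unfold pos
  refine Finset.sum_congr rfl fun j hj => ?_
  rw [Finset.mem_range] at hj
  unfold ext
  rw [dif_pos hj]

theorem mem_Gs {N : ℕ} {r t x : ℝ} :
    x ∈ Gs N r t ↔ ∃ κ : Fin N → Fin 4, |x - pos N (ext N κ) t| ≤ r := by
  constructor
  · rintro ⟨κ, h⟩
    exact ⟨fun j => κ j, by rwa [pos_ext]⟩
  · rintro ⟨κ, h⟩
    exact ⟨_, h⟩

theorem continuous_pos (N : ℕ) (κ : ℕ → Fin 4) : Continuous (pos N κ) := by
  unfold pos
  fun_prop

theorem abs_pos_le (N : ℕ) (κ : ℕ → Fin 4) {t : ℝ} (ht1 : -1 ≤ t) (ht2 : t ≤ 2) :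
    |pos N κ t| ≤ 21 * N := by
  unfold pos
  refine (Finset.abs_sum_le_sum_abs _ _).trans ?_
  have : ∀ j ∈ Finset.range N, |(t - hgt N j) * ((κ j : ℕ) : ℝ) * (1 / 4) ^ (j + 1)| ≤ 21 := by
    intro j hj
    rw [Finset.mem_range] at hj
    have hN : (0 : ℝ) < N := by
      have : 0 < N := by omega
      exact_mod_cast this
    have h4 : ((κ j : ℕ) : ℝ) ≤ 3 := by
      have := (κ j).isLt
      have h5 : (κ j : ℕ) ≤ 3 := by omega
      exact_mod_cast h5
    have h6 : |t - hgt N j| ≤ 7 := by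
      unfold hgt
      have h7 : 6 * (j : ℝ) / N ≤ 6 := by
        rw [div_le_iff₀ hN]
        have : (j : ℝ) ≤ N := by exact_mod_cast hj.le
        linarith
      have h8 : 0 ≤ 6 * (j : ℝ) / N := by positivity
      rw [abs_le]
      constructor <;> linarith
    rw [abs_mul, abs_mul, abs_of_nonneg (by positivity : (0 : ℝ) ≤ (1 / 4) ^ (j + 1)),
      abs_of_nonneg (by positivity : (0 : ℝ) ≤ ((κ j : ℕ) : ℝ))]
    have h9 : (1 / 4 : ℝ) ^ (j + 1) ≤ 1 := pow_le_one₀ (by norm_num) (by norm_num)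
    calc |t - hgt N j| * ((κ j : ℕ) : ℝ) * (1 / 4) ^ (j + 1) ≤ 7 * 3 * 1 := by gcongr
      _ = 21 := by norm_num
  refine (Finset.sum_le_sum this).trans ?_
  rw [Finset.sum_const, Finset.card_range, nsmul_eq_mul]
  linarith

/-- The union of tubes. -/
def Es (d N : ℕ) (δ : ℝ) : Set (Space d) :=
  {y | (-1 ≤ y.snd ∧ y.snd ≤ 2) ∧ ∀ i, y.fst i ∈ Gs N (4 * δ) y.snd}

theorem isClosed_Es (d N : ℕ) (δ : ℝ) : IsClosed (Es d N δ) := by
  have e : Es d N δ = {y : Space d | -1 ≤ y.snd} ∩ {y : Space d | y.snd ≤ 2} ∩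
      ⋂ i : Fin d, ⋃ κ : Fin N → Fin 4, {y : Space d | |y.fst i - pos N (ext N κ) y.snd| ≤ 4 * δ} := by
    ext y
    simp only [Es, mem_Gs, mem_inter_iff, mem_iInter, mem_iUnion, mem_ofPred_eq]
  rw [e]
  have hs : Continuous fun y : Space d => y.snd := by fun_prop
  have hf : ∀ i : Fin d, Continuous fun y : Space d => y.fst i := by
    intro i
    fun_prop
  refine ((isClosed_le continuous_const hs).inter (isClosed_le hs continuous_const)).inter ?_
  refine isClosed_iInter fun i => isClosed_iUnion_of_finite fun κ => ?_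
  exact isClosed_le (((hf i).sub ((continuous_pos N _).comp hs)).abs) continuous_const

theorem isBounded_Es (d N : ℕ) {δ : ℝ} (hδ1 : δ < 1) : Bornology.IsBounded (Es d N δ) := by
  rw [isBounded_iff_forall_norm_le]
  refine ⟨√(d * (21 * N + 4) ^ 2 + 4), ?_⟩
  rintro y ⟨⟨h1, h2⟩, h3⟩
  rw [WithLp.prod_norm_eq_of_L2]
  apply Real.sqrt_le_sqrt
  have h4 : ‖y.snd‖ ^ 2 ≤ 4 := by
    rw [Real.norm_eq_abs, sq_abs]
    nlinarith
  have h5 : ‖y.fst‖ ^ 2 ≤ d * (21 * N + 4) ^ 2 := by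
    rw [EuclideanSpace.norm_sq_eq]
    calc ∑ i, ‖y.fst i‖ ^ 2 ≤ ∑ _i : Fin d, (21 * (N : ℝ) + 4) ^ 2 := by
          apply Finset.sum_le_sum
          intro i _
          obtain ⟨κ, hκ⟩ := h3 i
          have h6 := abs_pos_le N κ h1 h2
          have h7 : |y.fst i| ≤ 21 * N + 4 := by
            calc |y.fst i| = |(y.fst i - pos N κ y.snd) + pos N κ y.snd| := by congr 1; ring
              _ ≤ _ := abs_add_le _ _
              _ ≤ 4 * δ + 21 * N := add_le_add hκ h6
              _ ≤ _ := by linarith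
          rw [Real.norm_eq_abs]
          gcongr
      _ = _ := by simp
  linarith

theorem isCompact_Es (d N : ℕ) {δ : ℝ} (hδ1 : δ < 1) : IsCompact (Es d N δ) := by
  have : ProperSpace (Space d) := FiniteDimensional.proper_real _
  exact isCompact_of_isClosed_isBounded (isClosed_Es d N δ) (isBounded_Es d N hδ1)

theorem vol_Es (d : ℕ) {N : ℕ} (hN : 0 < N) {δ : ℝ} (hδ : 0 < δ) (hδN : δ ≤ 4 * (1 / 4) ^ N) :
    volume (Es d N δ) ≤ ENNReal.ofReal (3 * (68 / N) ^ d) := by
  have hmp := WithLp.volume_preserving_toLp (Vec d) ℝ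
  have hme : MeasurableEmbedding (WithLp.toLp 2 : (Vec d) × ℝ → Space d) :=
    (MeasurableEquiv.toLp 2 ((Vec d) × ℝ)).measurableEmbedding
  have hEm : MeasurableSet (Es d N δ) := (isClosed_Es d N δ).measurableSet
  set R : Set (Vec d × ℝ) := WithLp.toLp 2 ⁻¹' (Es d N δ) with hR
  have hRm : MeasurableSet R := hmp.measurable hEm
  have h1 : volume (Es d N δ) = volume R := (hmp.measure_preimage_emb hme _).symm
  have h2 : volume R = ∫⁻ t : ℝ, volume ((fun y => (y, t)) ⁻¹' R) := by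
    rw [Measure.volume_eq_prod]
    exact Measure.prod_apply_symm hRm
  have h3 : ∀ t : ℝ, volume ((fun y : Vec d => (y, t)) ⁻¹' R) ≤
      (Icc (-1 : ℝ) 2).indicator (fun _ => ENNReal.ofReal ((68 / N) ^ d)) t := by
    intro t
    by_cases ht : t ∈ Icc (-1 : ℝ) 2
    · rw [indicator_of_mem ht]
      have h4 : (fun y : Vec d => (y, t)) ⁻¹' R ⊆
          WithLp.ofLp ⁻¹' (Set.pi univ fun _ : Fin d => Gs N (4 * δ) t) := by
        intro y hy i _
        exact hy.2 i
      have hGm : MeasurableSet (Gs N (4 * δ) t) := by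
        have : Gs N (4 * δ) t = ⋃ κ : Fin N → Fin 4, {x | |x - pos N (ext N κ) t| ≤ 4 * δ} := by
          ext x
          rw [mem_Gs, mem_iUnion]
          rfl
        rw [this]
        exact MeasurableSet.iUnion fun κ =>
          (isClosed_le (by fun_prop) continuous_const).measurableSet
      refine (measure_mono h4).trans ?_
      rw [(PiLp.volume_preserving_ofLp (Fin d)).measure_preimage
        (MeasurableSet.univ_pi fun _ => hGm).nullMeasurableSet, volume_pi_pi, Finset.prod_const,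
        Finset.card_univ, Fintype.card_fin, ENNReal.ofReal_pow (by positivity)]
      gcongr
      exact vol_Gs hN hδ hδN ht.1 ht.2
    · rw [indicator_of_notMem ht]
      have : (fun y : Vec d => (y, t)) ⁻¹' R = ∅ := by
        ext y
        simp only [mem_preimage, mem_empty_iff_false, iff_false]
        exact fun h => ht h.1
      rw [this, measure_empty]
  rw [h1, h2]
  refine (lintegral_mono h3).trans ?_
  rw [lintegral_indicator measurableSet_Icc, setLIntegral_const, Real.volume_Icc,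
    ← ENNReal.ofReal_mul (by positivity)]
  apply ENNReal.ofReal_le_ofReal
  linarith

/-- The positions. -/
noncomputable def bv (N : ℕ) (v : Vec d) : Vec d := WithLp.toLp 2 fun i => bet N (v i)

theorem tube_sub {N : ℕ} {δ : ℝ} (hδ1 : δ < 1) (hδN : (1 / 4) ^ N ≤ δ) {v : Vec d}
    (hv : ∀ i, 0 ≤ v i ∧ v i < 1) :
    tube δ (dir v) (linePt (bv N) v (1 / 2)) ⊆ Es d N δ := by
  have hδ : 0 < δ := lt_of_lt_of_le (by positivity) hδN
  rintro y ⟨h1, h2⟩
  set a : Space d := linePt (bv N) v (1 / 2) with ha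
  set e : Space d := dir v with he
  set s : ℝ := inner ℝ (y - a) e with hs
  set w : Space d := (y - a) - s • e with hw
  set ρ : ℝ := (√(1 + ‖v‖ ^ 2))⁻¹ with hρ
  have hρ0 : 0 < ρ := by positivity
  have hρ1 : ρ ≤ 1 := by
    rw [hρ]
    apply inv_le_one_of_one_le₀
    rw [Real.one_le_sqrt]
    nlinarith [sq_nonneg ‖v‖]
  have hy : y = a + s • e + w := by rw [hw]; abel
  have hnw : ‖w.fst‖ ≤ δ ∧ |w.snd| ≤ δ := by
    have h3 := WithLp.prod_norm_eq_of_L2 w
    have h4 : ‖w.fst‖ ^ 2 + ‖w.snd‖ ^ 2 ≤ δ ^ 2 := by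
      have h5 : (√(‖w.fst‖ ^ 2 + ‖w.snd‖ ^ 2)) ^ 2 ≤ δ ^ 2 := by
        rw [← h3]
        gcongr
      rwa [Real.sq_sqrt (by positivity)] at h5
    constructor
    · apply abs_le_of_sq_le_sq' _ hδ.le |>.2
      nlinarith [sq_nonneg ‖w.snd‖]
    · rw [← Real.norm_eq_abs]
      apply abs_le_of_sq_le_sq' _ hδ.le |>.2
      nlinarith [sq_nonneg ‖w.fst‖]
  have hsnd : y.snd = 1 / 2 + s * ρ + w.snd := by
    rw [hy, ha, he]
    simp [linePt, dir, ← hρ]
  have hfst : ∀ i, y.fst i = bet N (v i) + 1 / 2 * v i + s * (ρ * v i) + w.fst i := by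
    intro i
    rw [hy, ha, he]
    simp [linePt, dir, ← hρ, bv]
  have hsρ : |s * ρ| ≤ 1 / 2 := by
    rw [abs_mul, abs_of_pos hρ0]
    calc |s| * ρ ≤ 1 / 2 * 1 := by gcongr
      _ = 1 / 2 := by norm_num
  rw [abs_le] at hsρ
  have hw2 := abs_le.1 hnw.2
  have hh1 : -1 ≤ y.snd := by rw [hsnd]; linarith
  have hh2 : y.snd ≤ 2 := by rw [hsnd]; linarith
  refine ⟨⟨hh1, hh2⟩, ?_⟩
  intro i
  refine ⟨dig (v i), ?_⟩
  have h5 := bet_near (N := N) (t := y.snd) (hv i).1 (hv i).2 (by rw [abs_le]; constructor <;> linarith)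
    hδN
  have h6 : |w.fst i| ≤ δ := by
    have := PiLp.norm_apply_le w.fst i
    rw [Real.norm_eq_abs] at this
    exact this.trans hnw.1
  have h7 : |w.snd * v i| ≤ δ := by
    rw [abs_mul, abs_of_nonneg (hv i).1]
    calc |w.snd| * v i ≤ δ * 1 := mul_le_mul hnw.2 (hv i).2.le (hv i).1 hδ.le
      _ = δ := mul_one _
  have h8 : y.fst i - pos N (dig (v i)) y.snd = (w.fst i - w.snd * v i) +
      (bet N (v i) + y.snd * v i - pos N (dig (v i)) y.snd) := by
    rw [hfst i]
    nth_rewrite 2 [hsnd]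
    ring
  rw [h8]
  refine (abs_add_le _ _).trans ?_
  have h9 : |w.fst i - w.snd * v i| ≤ 2 * δ := by
    refine (abs_sub _ _).trans ?_
    linarith
  linarith

end Pool.Agent.X91.LB
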