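import Pool.Agent.X91.KT.LB2
import Pool.Agent.Y254.EL.Dual

set_option autoImplicit false

/-!
Small unions of tubes in all directions, and the order of the loss for products of planar families.
-/

open MeasureTheory Set ENNReal NNReal Metric

namespace Pool.Agent.X91.LB

open Pool.Agent.H803R2.KakFTO
open Pool.Agent.X91.KT (iso preimage_tube norm_dir')
open Pool.Agent.TH426.Kt (KTower Rough LMb VanOff spl Lg)

variable {d : ℕ}

/-- The number of digits. -/
theorem exists_N {δ : ℝ} (hδ : 0 < δ) (hδ1 : δ < 1) : ∃ N : ℕ, 0 < N ∧ (1 / 4 : ℝ) ^ N ≤ δ ∧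
    δ ≤ 4 * (1 / 4) ^ N ∧ 1 + Real.log (1 / δ) ≤ 3 * N := by
  obtain ⟨k, h1, h2⟩ := exists_nat_pow_near_of_lt_one hδ hδ1.le (by norm_num : (0 : ℝ) < 1 / 4)
    (by norm_num)
  refine ⟨k + 1, Nat.succ_pos k, h1.le, ?_, ?_⟩
  · rw [pow_succ]
    linarith
  · have h3 : Real.log (1 / δ) ≤ Real.log (4 ^ (k + 1)) := by
      apply Real.log_le_log (by positivity)
      rw [div_le_iff₀ hδ]
      have h4 : (4 : ℝ) ^ (k + 1) * (1 / 4) ^ (k + 1) = 1 := by rw [← mul_pow]; norm_num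
      calc (1 : ℝ) = 4 ^ (k + 1) * (1 / 4) ^ (k + 1) := h4.symm
        _ ≤ _ := by gcongr
    rw [Real.log_pow] at h3
    have h5 : Real.log 4 ≤ 2 := by
      have : Real.log 4 = 2 * Real.log 2 := by
        rw [show (4 : ℝ) = 2 ^ 2 by norm_num, Real.log_pow]; push_cast; ring
      have h6 := Real.log_two_lt_d9
      linarith
    have h7 : ((k + 1 : ℕ) : ℝ) * Real.log 4 ≤ ((k + 1 : ℕ) : ℝ) * 2 := by gcongr
    have h8 : (1 : ℝ) ≤ ((k + 1 : ℕ) : ℝ) := by exact_mod_cast Nat.succ_le_succ (Nat.zero_le k)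
    linarith

theorem vol_Es' (d : ℕ) {N : ℕ} (hN : 0 < N) {δ : ℝ} (hδ : 0 < δ) (hδ1 : δ < 1)
    (hδN : δ ≤ 4 * (1 / 4) ^ N) (hL : 1 + Real.log (1 / δ) ≤ 3 * N) :
    volume (Es d N δ) ≤ ENNReal.ofReal (3 * 204 ^ d * (1 / (1 + Real.log (1 / δ))) ^ d) := by
  refine (vol_Es d hN hδ hδN).trans (ENNReal.ofReal_le_ofReal ?_)
  have hN' : (0 : ℝ) < N := by exact_mod_cast hN
  have h0 : 0 ≤ Real.log (1 / δ) := Real.log_nonneg (by rw [le_div_iff₀ hδ]; linarith)
  rw [mul_assoc, ← mul_pow]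
  gcongr
  rw [mul_one_div, div_le_div_iff₀ hN' (by linarith)]
  nlinarith

/-- The set of directions covered by the construction, as a cone. -/
def Cn (d : ℕ) : Set (Space d) := {y | 0 < y.snd ∧ ∀ i, 0 < y.fst i ∧ y.fst i < y.snd}

theorem isOpen_Cn (d : ℕ) : IsOpen (Cn d) := by
  have e : Cn d = {y : Space d | 0 < y.snd} ∩ ⋂ i : Fin d,
      ({y : Space d | 0 < y.fst i} ∩ {y : Space d | y.fst i < y.snd}) := by
    ext y
    simp [Cn]
  rw [e]
  have hs : Continuous fun y : Space d => y.snd := by fun_prop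
  have hf : ∀ i : Fin d, Continuous fun y : Space d => y.fst i := by
    intro i
    fun_prop
  refine (isOpen_lt continuous_const hs).inter (isOpen_iInter_of_finite fun i => ?_)
  exact (isOpen_lt continuous_const (hf i)).inter (isOpen_lt (hf i) hs)

theorem exists_v {e : Space d} (he : ‖e‖ = 1) (hc : e ∈ Cn d) :
    ∃ v : Vec d, (∀ i, 0 ≤ v i ∧ v i < 1) ∧ dir v = e := by
  obtain ⟨h1, h2⟩ := hc
  refine ⟨e.snd⁻¹ • e.fst, ?_, ?_⟩
  · intro i
    obtain ⟨h3, h4⟩ := h2 i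
    simp only [PiLp.smul_apply, smul_eq_mul]
    refine ⟨by positivity, ?_⟩
    rw [inv_mul_lt_iff₀ h1]
    linarith
  · have h5 : ‖e.fst‖ ^ 2 + e.snd ^ 2 = 1 := by
      have := WithLp.prod_norm_sq_eq_of_L2 e
      rw [he, Real.norm_eq_abs, sq_abs] at this
      linarith
    have h6 : √(1 + ‖e.snd⁻¹ • e.fst‖ ^ 2) = e.snd⁻¹ := by
      rw [norm_smul, norm_inv, Real.norm_eq_abs, abs_of_pos h1, mul_pow]
      rw [Real.sqrt_eq_iff_mul_self_eq (by positivity) (by positivity)]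
      field_simp
      linarith
    unfold dir
    rw [h6, inv_inv, ← WithLp.toLp_smul]
    have h7 : e.snd • ((e.snd⁻¹ • e.fst, (1 : ℝ)) : Vec d × ℝ) = (e.fst, e.snd) := by
      rw [Prod.smul_mk, smul_smul, mul_inv_cancel₀ h1.ne', one_smul, smul_eq_mul, mul_one]
    rw [h7]
    rfl

theorem image_tube (g : Space d ≃ₗᵢ[ℝ] EuclideanSpace ℝ (Fin (d + 1))) (δ : ℝ) (e a : Space d) :
    Pool.Agent.W46.KK.tube δ (g a) (g e) = g '' tube δ e a := by
  ext y
  constructor
  · intro hy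
    refine ⟨g.symm y, ?_, by simp⟩
    simp only [Pool.Agent.W46.KK.tube, tube, mem_ofPred_eq] at hy ⊢
    obtain ⟨h1, h2⟩ := hy
    have e1 : y - g a = g (g.symm y - a) := by simp
    rw [e1, LinearIsometryEquiv.inner_map_map] at h1 h2
    rw [← map_smul, ← map_sub, LinearIsometryEquiv.norm_map] at h2
    exact ⟨h1, h2⟩
  · rintro ⟨z, hz, rfl⟩
    simp only [Pool.Agent.W46.KK.tube, tube, mem_ofPred_eq] at hz ⊢
    rw [← map_sub, LinearIsometryEquiv.inner_map_map, ← map_smul, ← map_sub,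
      LinearIsometryEquiv.norm_map]
    exact hz

/-- **Small unions of tubes in all directions.** -/
theorem small_union (d : ℕ) : ∃ C : ℝ, 0 < C ∧ ∀ δ : ℝ, 0 < δ → δ < 1 →
    ∃ E : Set (EuclideanSpace ℝ (Fin (d + 1))), IsCompact E ∧
      volume E ≤ ENNReal.ofReal (C * (1 / (1 + Real.log (1 / δ))) ^ d) ∧
      ∀ e : EuclideanSpace ℝ (Fin (d + 1)), ‖e‖ = 1 → ∃ a, Pool.Agent.W46.KK.tube δ a e ⊆ E := by
  classical
  set v0 : Vec d := WithLp.toLp 2 fun _ => (1 / 2 : ℝ) with hv0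
  set e0 : Space d := dir v0 with he0
  have he0n : ‖e0‖ = 1 := norm_dir' v0
  have he0c : e0 ∈ Cn d := by
    set ρ : ℝ := (√(1 + ‖v0‖ ^ 2))⁻¹ with hρd
    have hρ : 0 < ρ := by positivity
    have h1 : e0.snd = ρ := by
      rw [he0, hρd]
      simp [dir]
    have h2 : ∀ i, e0.fst i = ρ * (1 / 2) := by
      intro i
      rw [he0, hρd]
      simp [dir, hv0]
    refine ⟨by rw [h1]; exact hρ, fun i => ?_⟩
    rw [h1, h2]
    constructor
    · positivity
    · linarith
  have hg : ∀ e : EuclideanSpace ℝ (Fin (d + 1)), ‖e‖ = 1 →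
      ∃ g : Space d ≃ₗᵢ[ℝ] EuclideanSpace ℝ (Fin (d + 1)), g e0 = e := by
    intro e he
    refine ⟨(iso d).trans (Submodule.reflection (ℝ ∙ (iso d e0 - e))ᗮ), ?_⟩
    rw [LinearIsometryEquiv.trans_apply]
    apply Submodule.reflection_sub
    rw [LinearIsometryEquiv.norm_map, he0n, he]
  have : Nonempty (Space d ≃ₗᵢ[ℝ] EuclideanSpace ℝ (Fin (d + 1))) := ⟨iso d⟩
  choose! g hg using hg
  have hcpt : IsCompact (sphere (0 : EuclideanSpace ℝ (Fin (d + 1))) 1) := isCompact_sphere _ _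
  obtain ⟨t, ht, hcov⟩ := hcpt.elim_nhds_subcover (fun e => (g e).symm ⁻¹' (Cn d)) (by
    intro e he
    rw [mem_sphere_zero_iff_norm] at he
    apply ((isOpen_Cn d).preimage (g e).symm.continuous).mem_nhds
    change (g e).symm e ∈ Cn d
    have : (g e).symm e = e0 := by
      rw [LinearIsometryEquiv.symm_apply_eq, hg e he]
    rw [this]
    exact he0c)
  refine ⟨(t.card + 1) * (3 * 204 ^ d), by positivity, ?_⟩
  intro δ hδ hδ1
  obtain ⟨N, hN, hN1, hN2, hN3⟩ := exists_N hδ hδ1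
  have hlog : 0 ≤ Real.log (1 / δ) := Real.log_nonneg (by rw [le_div_iff₀ hδ]; linarith)
  refine ⟨⋃ e ∈ t, g e '' Es d N δ, ?_, ?_, ?_⟩
  · exact t.isCompact_biUnion fun e _ => (isCompact_Es d N hδ1).image (g e).continuous
  · calc volume (⋃ e ∈ t, g e '' Es d N δ) ≤ ∑ e ∈ t, volume (g e '' Es d N δ) :=
          measure_biUnion_finset_le _ _
      _ = ∑ _e ∈ t, volume (Es d N δ) := by
          refine Finset.sum_congr rfl fun e _ => ?_
          have hmp : MeasurePreserving (g e) volume volume := (g e).measurePreserving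
          have hme : MeasurableEmbedding (g e) := (g e).toHomeomorph.measurableEmbedding
          have := hmp.measure_preimage_emb hme (g e '' Es d N δ)
          rw [preimage_image_eq _ (g e).injective] at this
          exact this.symm
      _ ≤ ∑ _e ∈ t, ENNReal.ofReal (3 * 204 ^ d * (1 / (1 + Real.log (1 / δ))) ^ d) :=
          Finset.sum_le_sum fun e _ => vol_Es' d hN hδ hδ1 hN2 hN3
      _ = ENNReal.ofReal (t.card * (3 * 204 ^ d * (1 / (1 + Real.log (1 / δ))) ^ d)) := by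
          rw [Finset.sum_const, nsmul_eq_mul, ENNReal.ofReal_mul (Nat.cast_nonneg _),
            ENNReal.ofReal_natCast]
      _ ≤ _ := by
          apply ENNReal.ofReal_le_ofReal
          rw [← mul_assoc]
          gcongr
          linarith
  · intro e he
    obtain ⟨e1, he1, hec⟩ : ∃ e1 ∈ t, (g e1).symm e ∈ Cn d := by
      have := hcov (mem_sphere_zero_iff_norm.2 he)
      rw [mem_iUnion₂] at this
      obtain ⟨e1, h1, h2⟩ := this
      exact ⟨e1, h1, h2⟩
    obtain ⟨v, hv, hve⟩ := exists_v (e := (g e1).symm e) (by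
      rw [LinearIsometryEquiv.norm_map, he]) hec
    refine ⟨g e1 (linePt (bv N) v (1 / 2)), ?_⟩
    have h3 : e = g e1 (dir v) := by rw [hve]; simp
    rw [h3, image_tube]
    refine (image_mono (tube_sub hδ1 hN1 hv)).trans ?_
    exact subset_biUnion_of_mem (u := fun e => g e '' Es d N δ) he1

end Pool.Agent.X91.LB
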