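import Pool.Agent.X91.KT.LB3

set_option autoImplicit false

/-!
Products of planar families: the upper bound and Jensen's inequality.
-/

open MeasureTheory Set ENNReal NNReal Metric

namespace Pool.Agent.X91.LB

open Pool.Agent.H803R2.KakFTO
open Pool.Agent.X91.KT (iso preimage_tube norm_dir')
open Pool.Agent.TH426.Kt (KTower Rough LMb VanOff spl Lg)

variable {d : ℕ}

/-- The product of planar families. -/
noncomputable def pf {d : ℕ} (β : Fin d → ℝ → ℝ) (v : Vec d) : Vec d :=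
  WithLp.toLp 2 fun i => β i (v i)

theorem measurable_pf {β : Fin d → ℝ → ℝ} (hβ : ∀ i, Measurable (β i)) : Measurable (pf β) := by
  apply (WithLp.measurable_toLp 2 (Fin d → ℝ)).comp
  apply measurable_pi_lambda
  intro i
  exact (hβ i).comp (by fun_prop)

/-- The splitting of the last coordinate. -/
noncomputable def Sp (d : ℕ) : Vec (d + 1) ≃ₗᵢ[ℝ] WithLp 2 (Vec d × Vec 1) where
  toFun v := WithLp.toLp 2 (WithLp.toLp 2 fun i => v i.castSucc, WithLp.toLp 2 fun _ => v (Fin.last d))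
  invFun w := WithLp.toLp 2 (Fin.snoc (α := fun _ => ℝ) (fun i => w.fst i) (w.snd 0))
  map_add' v w := by
    apply WithLp.ofLp_injective
    refine Prod.ext ?_ ?_ <;> ext i <;> simp
  map_smul' c v := by
    apply WithLp.ofLp_injective
    refine Prod.ext ?_ ?_ <;> ext i <;> simp
  left_inv v := by
    ext i
    refine Fin.lastCases ?_ (fun i => ?_) i <;> simp
  right_inv w := by
    apply WithLp.ofLp_injective
    refine Prod.ext ?_ ?_
    · ext i
      simp
    · ext i
      have : i = 0 := Subsingleton.elim _ _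
      subst this
      simp
  norm_map' v := by
    change ‖(WithLp.toLp 2 (WithLp.toLp 2 fun i => v i.castSucc, WithLp.toLp 2 fun _ =>
      v (Fin.last d)) : WithLp 2 (Vec d × Vec 1))‖ = ‖v‖
    rw [WithLp.prod_norm_eq_of_L2, EuclideanSpace.norm_sq_eq, EuclideanSpace.norm_sq_eq,
      EuclideanSpace.norm_eq v, Fin.sum_univ_castSucc]
    simp [Fin.sum_univ_castSucc]

theorem ktower (d : ℕ) (β : Fin (d + 1) → ℝ → ℝ) (hβ : ∀ i, Measurable (β i)) :
    KTower (Rough univ) (d + 1) (((d + 1 : ℕ) : ℝ) + 1) 1 (closedBall 0 1) (pf β) := by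
  induction d with
  | zero =>
    exact KTower.base (Rough.planar measurableSet_closedBall subset_rfl (measurable_pf hβ))
  | succ d ih =>
    have h1 := ih (fun i => β i.castSucc) (fun i => hβ _)
    have h2 : ∀ v : Vec (d + 1), v ∈ closedBall (0 : Vec (d + 1)) 1 →
        KTower (Rough univ) 1 ((1 : ℕ) + 1) 1 (closedBall 0 1) (pf fun _ : Fin 1 => β (Fin.last _)) :=
      fun v _ => KTower.base (Rough.planar measurableSet_closedBall subset_rfl
        (measurable_pf fun _ => hβ _))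
    have h3 := KTower.skew (B := closedBall (0 : Vec (d + 1 + 1)) 1) (b := pf β)
      (b2 := fun _ => pf fun _ : Fin 1 => β (Fin.last _)) (Sp (d + 1)) (by omega) le_rfl one_pos
      h1 h2 (by
        have : {z : Vec (d + 1) × Vec 1 | z.1 ∈ closedBall (0 : Vec (d + 1)) 1 ∧
            z.2 ∈ closedBall (0 : Vec 1) 1} = closedBall 0 1 ×ˢ closedBall 0 1 := rfl
        rw [this]
        exact measurableSet_closedBall.prod measurableSet_closedBall)
      ((measurable_pf fun _ => hβ _).comp measurable_snd) measurableSet_closedBall subset_rfl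
      (measurable_pf hβ) (by
        intro v hv
        rw [mem_closedBall_zero_iff] at hv
        have h4 : ‖(Sp (d + 1) v)‖ ≤ 1 := by rwa [LinearIsometryEquiv.norm_map]
        have h5 : ‖(Sp (d + 1) v).fst‖ ≤ 1 ∧ ‖(Sp (d + 1) v).snd‖ ≤ 1 := by
          rw [WithLp.prod_norm_eq_of_L2, Real.sqrt_le_one] at h4
          constructor
          · nlinarith [norm_nonneg (Sp (d + 1) v).fst, sq_nonneg ‖(Sp (d + 1) v).snd‖]
          · nlinarith [norm_nonneg (Sp (d + 1) v).snd, sq_nonneg ‖(Sp (d + 1) v).fst‖]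
        refine ⟨mem_closedBall_zero_iff.2 h5.1, mem_closedBall_zero_iff.2 h5.2, ?_⟩
        unfold spl
        refine Prod.ext ?_ ?_
        · ext i
          simp [Sp, pf]
        · ext i
          simp [Sp, pf])
    have e : (((d + 1 : ℕ) : ℝ) + 1) + ((1 : ℕ) + 1) - 1 = ((d + 1 + 1 : ℕ) : ℝ) + 1 := by
      push_cast; ring
    rw [e, one_mul] at h3
    exact h3

/-- Jensen's inequality for the maximal function of a family. -/
theorem lineMax_pow {δ : ℝ} (hδ : 0 < δ) (hδ1 : δ < 1) (b : Vec d → Vec d) (f : Space d → ℝ)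
    (v : Vec d) {r : ℝ} (hr : 1 < r) :
    lineMax δ b f v ^ r ≤ lineMax δ b (fun y => ‖f y‖ ^ r) v := by
  have hr0 : 0 < r := by linarith
  obtain ⟨κ, hκ, hV⟩ := Pool.Agent.W131.HM.VOL d
  have h1r : 0 ≤ 1 - 1 / r := by
    rw [sub_nonneg, div_le_one hr0]
    exact hr.le
  have hpe : ∀ y, ‖‖f y‖ ^ r‖ₑ = ‖f y‖ₑ ^ r := by
    intro y
    rw [Real.enorm_eq_ofReal (by positivity), ← ENNReal.ofReal_rpow_of_nonneg (norm_nonneg _) hr0.le,
      ofReal_norm]
  have hkey : lineMax δ b f v ≤ lineMax δ b (fun y => ‖f y‖ ^ r) v ^ (1 / r) := by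
    unfold lineMax
    apply iSup_le
    intro s
    refine le_trans ?_ (ENNReal.rpow_le_rpow (le_iSup (fun s =>
      (volume (tube δ (dir v) (linePt b v s)))⁻¹ *
        ∫⁻ y in tube δ (dir v) (linePt b v s), ‖‖f y‖ ^ r‖ₑ) s) (by positivity))
    have hmp : MeasurePreserving (iso d) volume volume := (iso d).measurePreserving
    have hme : MeasurableEmbedding (iso d) := (iso d).toHomeomorph.measurableEmbedding
    have hvol : volume (tube δ (dir v) (linePt b v s)) =
        volume (Pool.Agent.W46.KK.tube δ (iso d (linePt b v s)) (iso d (dir v))) := by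
      rw [← preimage_tube, hmp.measure_preimage_emb hme]
    obtain ⟨h1, h2⟩ := hV (iso d (linePt b v s)) (iso d (dir v)) δ (by simp [norm_dir']) hδ hδ1.le
    rw [← hvol] at h1 h2
    have h3 : volume (tube δ (dir v) (linePt b v s)) ≠ 0 := by
      intro h
      rw [h, nonpos_iff_eq_zero, ENNReal.ofReal_eq_zero] at h1
      have : 0 < κ * δ ^ d := by positivity
      linarith
    set V : ℝ≥0∞ := volume (tube δ (dir v) (linePt b v s)) with hVd
    have h4 := Pool.Agent.Y254.EL.holder_set (volume.restrict (tube δ (dir v) (linePt b v s)))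
      univ (fun y => ‖f y‖ₑ) hr
    rw [Measure.restrict_univ, Measure.restrict_apply_univ] at h4
    simp only [hpe]
    calc V⁻¹ * ∫⁻ y in tube δ (dir v) (linePt b v s), ‖f y‖ₑ
        ≤ V⁻¹ * ((∫⁻ y in tube δ (dir v) (linePt b v s), ‖f y‖ₑ ^ r) ^ (1 / r) *
          V ^ (1 - 1 / r)) := by gcongr
      _ = (V⁻¹ * V ^ (1 - 1 / r)) *
          (∫⁻ y in tube δ (dir v) (linePt b v s), ‖f y‖ₑ ^ r) ^ (1 / r) := by ring
      _ = (V⁻¹) ^ (1 / r) * (∫⁻ y in tube δ (dir v) (linePt b v s), ‖f y‖ₑ ^ r) ^ (1 / r) := by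
          congr 1
          rw [ENNReal.inv_rpow, ← ENNReal.rpow_neg, ← ENNReal.rpow_neg_one,
            ← ENNReal.rpow_add _ _ h3 h2]
          congr 1
          ring
      _ = _ := by rw [← ENNReal.mul_rpow_of_nonneg _ _ (by positivity)]
  calc lineMax δ b f v ^ r ≤ (lineMax δ b (fun y => ‖f y‖ ^ r) v ^ (1 / r)) ^ r :=
        ENNReal.rpow_le_rpow hkey hr0.le
    _ = _ := by rw [← ENNReal.rpow_mul, one_div, inv_mul_cancel₀ hr0.ne', ENNReal.rpow_one]

/-- The upper bound for products of planar families. -/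
theorem upper (d : ℕ) : ∃ C : ℝ, 0 < C ∧ ∀ (β : Fin (d + 1) → ℝ → ℝ), (∀ i, Measurable (β i)) →
    ∀ (p δ : ℝ), ((d + 1 : ℕ) : ℝ) + 1 ≤ p → 0 < δ → δ < 1 → ∀ f : Space (d + 1) → ℝ, Measurable f →
    ∫⁻ v in closedBall (0 : Vec (d + 1)) 1, lineMax δ (pf β) f v ^ p ≤
      ENNReal.ofReal (C * (1 + Real.log (1 / δ)) ^ (d + 1)) * ∫⁻ y, ‖f y‖ₑ ^ p := by
  set K : ℝ≥0∞ := Pool.Agent.TH426.Kt.cb (d + 1) ^ (((d + 1 : ℕ) : ℝ) + 1) *
    Pool.Agent.TH426.Kt.cc Pool.Agent.TH426.Kt.c0 (Pool.Agent.TH426.Kt.KK 1) (d + 1) with hK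
  have hKt : K ≠ ∞ := ENNReal.mul_ne_top
    (ENNReal.rpow_ne_top_of_nonneg (by positivity) (Pool.Agent.TH426.Kt.cb_ne_top _))
    (Pool.Agent.TH426.Kt.cc_ne_top Pool.Agent.TH426.Kt.c0_ne_top
      (Pool.Agent.TH426.Kt.KK_ne_top zero_le_one) _)
  refine ⟨K.toReal + 1, by positivity, ?_⟩
  intro β hβ p δ hp hδ hδ1 f hf
  have hlog : 0 ≤ Real.log (1 / δ) := Real.log_nonneg (by rw [le_div_iff₀ hδ]; linarith)
  have hP1 := Pool.Agent.TH426.Kt.one_le_Lg hδ hδ1
  set n : ℝ := ((d + 1 : ℕ) : ℝ) + 1 with hn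
  have hn0 : 0 < n := by positivity
  have key := Pool.Agent.TH426.Kt.tower_lmb (Pool.Agent.TH426.Kt.rough_reg univ) hδ hδ1
    MeasurableSet.univ Pool.Agent.TH426.Kt.c0_ne_top (Λ := Lg δ) (zero_lt_one.trans_le hP1).ne'
    (Pool.Agent.TH426.Kt.Lg_ne_top δ)
    (fun k => Pool.Agent.TH426.Kt.rough_bd MeasurableSet.univ hδ hδ1 k) (ktower d β hβ)
    (b' := pf β) (fun v _ => by simpa using hδ.le)
  have hmain : ∀ g : Space (d + 1) → ℝ, Measurable g →
      ∫⁻ v in closedBall (0 : Vec (d + 1)) 1, lineMax δ (pf β) g v ^ n ≤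
      ENNReal.ofReal ((K.toReal + 1) * (1 + Real.log (1 / δ)) ^ (d + 1)) *
        ∫⁻ y, ‖g y‖ₑ ^ n := by
    intro g hg
    have h1 := key g hg (fun _ _ h => absurd (mem_univ _) h)
    rw [one_mul, ENNReal.rpow_one] at h1
    refine h1.trans (mul_le_mul_left ?_ _)
    rw [ENNReal.ofReal_mul (by positivity), ENNReal.ofReal_pow (by linarith)]
    have h2 : K ≤ ENNReal.ofReal (K.toReal + 1) := by
      calc K = ENNReal.ofReal K.toReal := (ENNReal.ofReal_toReal hKt).symm
        _ ≤ _ := ENNReal.ofReal_le_ofReal (by linarith)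
    rw [ENNReal.coe_one, mul_one]
    exact mul_le_mul' h2 le_rfl
  rcases hp.eq_or_lt with h0 | h0
  · rw [← h0]
    exact hmain f hf
  · have hr : 1 < p / n := by rw [lt_div_iff₀ hn0]; linarith
    have hpe : ∀ y, ‖‖f y‖ ^ (p / n)‖ₑ ^ n = ‖f y‖ₑ ^ p := by
      intro y
      rw [Real.enorm_eq_ofReal (by positivity), ← ENNReal.ofReal_rpow_of_nonneg (norm_nonneg _)
        (by linarith), ofReal_norm, ← ENNReal.rpow_mul]
      congr 1
      field_simp
    calc ∫⁻ v in closedBall (0 : Vec (d + 1)) 1, lineMax δ (pf β) f v ^ p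
        ≤ ∫⁻ v in closedBall (0 : Vec (d + 1)) 1,
          lineMax δ (pf β) (fun y => ‖f y‖ ^ (p / n)) v ^ n := by
          apply lintegral_mono
          intro v
          have e1 : lineMax δ (pf β) f v ^ p = (lineMax δ (pf β) f v ^ (p / n)) ^ n := by
            rw [← ENNReal.rpow_mul]
            congr 1
            field_simp
          dsimp only
          rw [e1]
          exact ENNReal.rpow_le_rpow (lineMax_pow hδ hδ1 _ f v hr) hn0.le
      _ ≤ _ := hmain _ (hf.norm.pow_const _)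
      _ = _ := by simp only [hpe]

end Pool.Agent.X91.LB
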