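import Pool.Agent.Y254.EL.Dual3
import Pool.Agent.W902.HM.Weak

set_option autoImplicit false

/-!
Loss removal for the Kakeya maximal function: duality at a general slope.
-/

open MeasureTheory Set Metric
open scoped ENNReal NNReal

namespace Pool.Agent.X91.KT

open Pool.Agent.Y254 (mult mult_meas mult_le mult_ne_top mult_zero_or lint_mult vol_tube Cv Cv_pos)
open Pool.Agent.W46.HM (kmax)
open Pool.Agent.Y244.HM (WeakP StrongP strongP)
open Pool.Agent.Y244.WR (TubeQ weakQ)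
open Pool.Agent.Y254.EL (sg cap_lower int_le_kmax triv_bound card_dirs EuL EuF euF_of_euL euL_of_euF
  kmax_pow crit_of_sub)

/-- Hölder's inequality for functions of weak type. -/
theorem weak_holder (r : ℝ) (hr : 1 < r) : ∃ M : ℝ, 0 < M ∧
    ∀ (X : Type) [MeasurableSpace X] (μ : Measure X) [IsFiniteMeasure μ] (F : X → ℝ≥0∞) (K : ℝ≥0∞)
      (U : Set X), (∀ l : ℝ, 0 < l → μ {e | ENNReal.ofReal l < F e} ≤ K * ENNReal.ofReal (l ^ (-r))) →
      ∫⁻ e in U, F e ∂μ ≤ ENNReal.ofReal M * (K ^ (1 / r) * μ U ^ (1 - 1 / r)) := by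
  set M : ℝ≥0∞ := 1 + ENNReal.ofReal (2 ^ (1 : ℝ)) * (1 - ENNReal.ofReal (2 ^ (-(r - 1))))⁻¹ with hM
  have hMt : M ≠ ⊤ := by
    refine ENNReal.add_ne_top.mpr ⟨ENNReal.one_ne_top, ENNReal.mul_ne_top ENNReal.ofReal_ne_top ?_⟩
    rw [ENNReal.inv_ne_top]
    refine (tsub_pos_of_lt ?_).ne'
    rw [← ENNReal.ofReal_one]
    refine (ENNReal.ofReal_lt_ofReal_iff one_pos).mpr ?_
    exact Real.rpow_lt_one_of_one_lt_of_neg (by norm_num) (by linarith)
  have hr0 : 0 < r := by linarith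
  refine ⟨M.toReal + 1, by positivity, ?_⟩
  intro X _ μ _ F K U h
  rcases eq_or_ne (μ U) 0 with h0 | h0
  · rw [Measure.restrict_eq_zero.2 h0, lintegral_zero_measure]
    exact zero_le
  have ht : μ U ≠ ⊤ := measure_ne_top _ _
  set ν : Measure X := (μ U)⁻¹ • μ.restrict U with hν
  have hν1 : ν univ = 1 := by
    rw [hν, Measure.smul_apply, Measure.restrict_apply_univ, smul_eq_mul,
      ENNReal.inv_mul_cancel h0 ht]
  have : IsFiniteMeasure ν := ⟨by rw [hν1]; exact ENNReal.one_lt_top⟩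
  have key := Pool.Agent.W902.HM.weak_strong ν F ((μ U)⁻¹ * K) 1 r one_pos hr (by
    intro l hl
    rw [hν, Measure.smul_apply, smul_eq_mul, mul_assoc]
    gcongr
    exact (Measure.restrict_apply_le _ _).trans (h l hl))
  rw [hν1, ← hM] at key
  simp only [ENNReal.rpow_one] at key
  have e1 : ∫⁻ e in U, F e ∂μ = μ U * ∫⁻ e, F e ∂ν := by
    rw [hν, lintegral_smul_measure, smul_eq_mul, ← mul_assoc, ENNReal.mul_inv_cancel h0 ht, one_mul]
  have h1r : 0 ≤ 1 - 1 / r := by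
    rw [sub_nonneg, div_le_one hr0]
    exact hr.le
  have e2 : μ U * (((μ U)⁻¹ * K) ^ (1 / r)) = K ^ (1 / r) * μ U ^ (1 - 1 / r) := by
    rw [ENNReal.mul_rpow_of_nonneg _ _ (by positivity), ENNReal.inv_rpow, ← ENNReal.rpow_neg]
    calc μ U * (μ U ^ (-(1 / r)) * K ^ (1 / r))
        = K ^ (1 / r) * (μ U ^ (1 : ℝ) * μ U ^ (-(1 / r))) := by
          rw [ENNReal.rpow_one]; ring
      _ = _ := by
          rw [← ENNReal.rpow_add _ _ h0 ht]
          congr 2
  calc ∫⁻ e in U, F e ∂μ = μ U * ∫⁻ e, F e ∂ν := e1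
    _ ≤ μ U * (((μ U)⁻¹ * K) ^ (1 / r) * M) := by gcongr
    _ = M * (μ U * (((μ U)⁻¹ * K) ^ (1 / r))) := by ring
    _ = M * (K ^ (1 / r) * μ U ^ (1 - 1 / r)) := by rw [e2]
    _ ≤ _ := by
        gcongr
        calc M = ENNReal.ofReal M.toReal := (ENNReal.ofReal_toReal hMt).symm
          _ ≤ _ := ENNReal.ofReal_le_ofReal (by linarith)

variable {d : ℕ}

/-- The weak type estimate at the slope `c` with a loss. -/
def WK (d : ℕ) (c ε C : ℝ) : Prop := ∀ δ : ℝ, 0 < δ → δ < 1 →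
    ∀ f : EuclideanSpace ℝ (Fin (d + 1)) → ℝ≥0∞, Measurable f → (∀ x, f x ≠ ∞) →
    ∀ l : ℝ, 0 < l → sg d {e | ENNReal.ofReal l < kmax δ f (e : EuclideanSpace ℝ (Fin (d + 1)))} ≤
      ENNReal.ofReal (C * δ ^ (-ε) * δ ^ (-((c - 1) * (d : ℝ))) * l ^ (-((d : ℝ) + c))) *
        (∫⁻ y, f y ^ (1 + (d : ℝ) / c)) ^ c

/-- Solving the inequality. -/
theorem solve2 {J B X Y c d' : ℝ} (hJ : 0 ≤ J) (hB : 0 ≤ B) (hX : 0 ≤ X) (hY : 0 ≤ Y)
    (hc : 0 < c) (hd' : 0 < d')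
    (h : J ≤ B * X ^ (1 / (d' + c)) * J ^ (c / (d' + c)) * Y ^ (1 - 1 / (d' + c))) :
    J ≤ B ^ ((d' + c) / d') * X ^ (1 / d') * Y ^ ((d' + c - 1) / d') := by
  rcases hJ.eq_or_lt with h0 | h0
  · rw [← h0]
    positivity
  have hr : 0 < d' + c := by positivity
  have e1 : J = J ^ (d' / (d' + c)) * J ^ (c / (d' + c)) := by
    rw [← Real.rpow_add h0, ← add_div, div_self hr.ne', Real.rpow_one]
  have h1 : J ^ (d' / (d' + c)) ≤ B * X ^ (1 / (d' + c)) * Y ^ (1 - 1 / (d' + c)) := by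
    have h2 : 0 < J ^ (c / (d' + c)) := by positivity
    rw [← mul_le_mul_iff_left₀ h2]
    calc J ^ (d' / (d' + c)) * J ^ (c / (d' + c)) = J := e1.symm
      _ ≤ _ := h
      _ = _ := by ring
  calc J = (J ^ (d' / (d' + c))) ^ ((d' + c) / d') := by
        rw [← Real.rpow_mul hJ]
        have : d' / (d' + c) * ((d' + c) / d') = 1 := by field_simp
        rw [this, Real.rpow_one]
    _ ≤ (B * X ^ (1 / (d' + c)) * Y ^ (1 - 1 / (d' + c))) ^ ((d' + c) / d') := by gcongr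
    _ = _ := by
        rw [Real.mul_rpow (by positivity) (by positivity), Real.mul_rpow hB (by positivity),
          ← Real.rpow_mul hX, ← Real.rpow_mul hY]
        have e3 : 1 / (d' + c) * ((d' + c) / d') = 1 / d' := by field_simp
        have e4 : (1 - 1 / (d' + c)) * ((d' + c) / d') = (d' + c - 1) / d' := by field_simp
        rw [e3, e4]

/-- Duality. -/
theorem dual_weak (hd : 1 ≤ d) {c ε C : ℝ} (hc : 1 ≤ c) (hε : 0 ≤ ε) (hC : 0 ≤ C)
    (h : WK d c ε C) :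
    ∃ C' : ℝ, 0 ≤ C' ∧ ∀ δ : ℝ, 0 < δ → δ ≤ 1 / 5 → ∀ (ι : Type) [Fintype ι]
    (a e : ι → EuclideanSpace ℝ (Fin (d + 1))), (∀ i, ‖e i‖ = 1) →
    (∀ i j, i ≠ j → δ ≤ ‖e i - e j‖) →
    ∫⁻ x, mult (fun i => W46.KK.tube δ (a i) (e i)) x ^ (1 + c / (d : ℝ)) ≤
      ENNReal.ofReal (C' * (δ ^ (-(ε / d)) *
        (δ ^ d * (Fintype.card ι : ℝ) ^ (1 + c / (d : ℝ) - 1 / d)))) := by
  classical
  have hd0 : (0 : ℝ) < d := by exact_mod_cast hd
  have hc0 : 0 < c := by linarith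
  have hcd : 0 < c / (d : ℝ) := by positivity
  have hCv := Cv_pos (d + 1)
  obtain ⟨κ, hκ, hcl⟩ := cap_lower d
  obtain ⟨C1, hC1, hcu⟩ := Pool.Agent.W131.HM.CAP d
  set r : ℝ := (d : ℝ) + c with hr
  have hr1 : 1 < r := by linarith
  have hr0 : 0 < r := by linarith
  obtain ⟨M, hM, hMh⟩ := weak_holder r hr1
  set V : ℝ := 2 * (Cv (d + 1) * 2 * 2 ^ d) with hV
  set B : ℝ := V * (4 ^ d / κ) * M * C ^ (1 / r) * C1 ^ (1 - 1 / r) with hB
  have h1p : 0 ≤ 1 - 1 / r := by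
    rw [sub_nonneg, div_le_one hr0]
    exact hr1.le
  refine ⟨B ^ (r / d), by positivity, ?_⟩
  intro δ hδ hδ5 ι _ a e he hsep
  have hδ1 : δ < 1 := by linarith
  set T : ι → Set (EuclideanSpace ℝ (Fin (d + 1))) := fun i => W46.KK.tube δ (a i) (e i) with hT
  have hTm : ∀ i, MeasurableSet (T i) := fun i => (W46.KK.tube_isClosed _ _ _).measurableSet
  set g : EuclideanSpace ℝ (Fin (d + 1)) → ℝ≥0∞ := fun x => mult T x ^ (c / (d : ℝ)) with hg
  have hgm : Measurable g := (mult_meas hTm).pow_const _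
  have hgt : ∀ x, g x ≠ ∞ := fun x => ENNReal.rpow_ne_top_of_nonneg hcd.le (mult_ne_top T x)
  set I : ℝ≥0∞ := ∫⁻ x, mult T x ^ (1 + c / (d : ℝ)) with hI
  have hIt : I ≠ ∞ := by
    refine ne_top_of_le_ne_top ENNReal.ofReal_ne_top (triv_bound (q := 1 + c / (d : ℝ))
      (by linarith) hδ hδ1 a e he)
  have hIg : I = ∫⁻ y, g y ^ (1 + (d : ℝ) / c) := by
    rw [hI, hg]
    refine lintegral_congr fun x => ?_
    rw [← ENNReal.rpow_mul]
    congr 1
    field_simp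
    ring
  have hsum : I = ∑ i, ∫⁻ y in T i, g y := by
    have e1 : ∀ x, mult T x ^ (1 + c / (d : ℝ)) = ∑ i, (T i).indicator g x := by
      intro x
      rw [ENNReal.rpow_add_of_nonneg _ _ zero_le_one hcd.le, ENNReal.rpow_one]
      nth_rewrite 1 [show mult T x = ∑ i, (T i).indicator 1 x from rfl]
      rw [Finset.sum_mul]
      refine Finset.sum_congr rfl fun i _ => ?_
      by_cases hx : x ∈ T i
      · rw [indicator_of_mem hx, indicator_of_mem hx, Pi.one_apply, one_mul]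
      · rw [indicator_of_notMem hx, indicator_of_notMem hx, zero_mul]
    rw [hI, lintegral_congr e1, lintegral_finsetSum _ fun i _ => hgm.indicator (hTm i)]
    refine Finset.sum_congr rfl fun i _ => ?_
    rw [lintegral_indicator (hTm i)]
  set cp : ι → Set (sphere (0 : EuclideanSpace ℝ (Fin (d + 1))) 1) := fun i =>
    closedBall ⟨e i, by rw [mem_sphere_zero_iff_norm]; exact he i⟩ (δ / 4) with hcp
  have hcm : ∀ i, MeasurableSet (cp i) := fun i => isClosed_closedBall.measurableSet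
  have hcdist : ∀ i, ∀ x ∈ cp i, ‖e i - (x : EuclideanSpace ℝ (Fin (d + 1)))‖ ≤ δ / 4 := by
    intro i x hx
    rw [hcp, mem_closedBall, Subtype.dist_eq, dist_eq_norm, norm_sub_rev] at hx
    exact hx
  have hdis : ((Finset.univ : Finset ι) : Set ι).PairwiseDisjoint cp := by
    intro i _ j _ hij
    rw [Function.onFun, Set.disjoint_left]
    intro x hxi hxj
    have h1 := hcdist i x hxi
    have h2 := hcdist j x hxj
    have h3 := hsep i j hij
    have h4 : e i - e j = (e i - x) - (e j - x) := by abel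
    rw [h4] at h3
    have := norm_sub_le (e i - (x : EuclideanSpace ℝ (Fin (d + 1)))) (e j - x)
    linarith
  have hstep : ∀ i, ENNReal.ofReal (κ * (δ / 4) ^ d) * ∫⁻ y in T i, g y ≤
      ENNReal.ofReal (V * δ ^ d) * ∫⁻ x in cp i, kmax (2 * δ) g x ∂(sg d) := by
    intro i
    calc ENNReal.ofReal (κ * (δ / 4) ^ d) * ∫⁻ y in T i, g y
        ≤ sg d (cp i) * ∫⁻ y in T i, g y := by
          gcongr
          exact hcl _ _ (by positivity) (by linarith)
      _ = ∫⁻ _x in cp i, (∫⁻ y in T i, g y) ∂(sg d) := by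
          rw [setLIntegral_const, mul_comm]
      _ ≤ ∫⁻ x in cp i, ENNReal.ofReal (V * δ ^ d) * kmax (2 * δ) g x ∂(sg d) := by
          apply setLIntegral_mono' (hcm i)
          intro x hx
          have h1 := int_le_kmax hδ hδ5 (a i) (e := (x : EuclideanSpace ℝ (Fin (d + 1))))
            (e' := e i) (by simp) (hcdist i x hx) g
          refine h1.trans (le_of_eq ?_)
          congr 2
          rw [hV, mul_pow]
          ring
      _ = _ := by
          rw [lintegral_const_mul' _ _ ENNReal.ofReal_ne_top]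
  have htot : ENNReal.ofReal (κ * (δ / 4) ^ d) * I ≤
      ENNReal.ofReal (V * δ ^ d) * ∫⁻ x in ⋃ i ∈ (Finset.univ : Finset ι), cp i,
        kmax (2 * δ) g x ∂(sg d) := by
    rw [lintegral_biUnion_finset hdis fun i _ => hcm i, hsum, Finset.mul_sum, Finset.mul_sum]
    exact Finset.sum_le_sum fun i _ => hstep i
  have hcapU : sg d (⋃ i ∈ (Finset.univ : Finset ι), cp i) ≤
      ENNReal.ofReal (C1 * ((Fintype.card ι : ℝ) * δ ^ d)) := by
    refine (measure_biUnion_finset_le _ _).trans ?_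
    calc ∑ i : ι, sg d (cp i) ≤ ∑ _i : ι, ENNReal.ofReal (C1 * (δ / 4) ^ d) :=
          Finset.sum_le_sum fun i _ => hcu _ _ (by positivity) (by linarith)
      _ = ENNReal.ofReal ((Fintype.card ι : ℝ) * (C1 * (δ / 4) ^ d)) := by
          rw [Finset.sum_const, Finset.card_univ, nsmul_eq_mul, ← ENNReal.ofReal_natCast,
            ← ENNReal.ofReal_mul (by positivity)]
      _ ≤ _ := by
          apply ENNReal.ofReal_le_ofReal
          have : (δ / 4) ^ d ≤ δ ^ d := by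
            gcongr
            linarith
          calc (Fintype.card ι : ℝ) * (C1 * (δ / 4) ^ d) ≤ (Fintype.card ι : ℝ) * (C1 * δ ^ d) := by
                gcongr
            _ = _ := by ring
  obtain ⟨J, hJ0, hJ⟩ : ∃ J : ℝ, 0 ≤ J ∧ I = ENNReal.ofReal J :=
    ⟨I.toReal, ENNReal.toReal_nonneg, (ENNReal.ofReal_toReal hIt).symm⟩
  set L : ℝ := C * (2 * δ) ^ (-ε) * (2 * δ) ^ (-((c - 1) * (d : ℝ))) with hL
  have hL0 : 0 ≤ L := by positivity
  have hweak : ∀ l : ℝ, 0 < l → sg d {e | ENNReal.ofReal l < kmax (2 * δ) g (e :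
      EuclideanSpace ℝ (Fin (d + 1)))} ≤ ENNReal.ofReal (L * J ^ c) * ENNReal.ofReal (l ^ (-r)) := by
    intro l hl
    refine (h (2 * δ) (by positivity) (by linarith) g hgm hgt l hl).trans (le_of_eq ?_)
    rw [← hIg, hJ, ENNReal.ofReal_rpow_of_nonneg hJ0 hc0.le, ← ENNReal.ofReal_mul (by positivity),
      ← ENNReal.ofReal_mul (by positivity)]
    congr 1
    rw [hL, hr]
    ring
  have hhol := hMh _ (sg d) (fun x : sphere (0 : EuclideanSpace ℝ (Fin (d + 1))) 1 =>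
    kmax (2 * δ) g (x : EuclideanSpace ℝ (Fin (d + 1)))) _
    (⋃ i ∈ (Finset.univ : Finset ι), cp i) hweak
  have hmain : ENNReal.ofReal (κ * (δ / 4) ^ d) * I ≤ ENNReal.ofReal (V * δ ^ d) *
      (ENNReal.ofReal M * (ENNReal.ofReal (L * J ^ c) ^ (1 / r) *
        ENNReal.ofReal (C1 * ((Fintype.card ι : ℝ) * δ ^ d)) ^ (1 - 1 / r))) := by
    refine htot.trans ?_
    gcongr
    refine hhol.trans ?_
    gcongr
  have h2δ : (2 * δ) ^ (-ε) ≤ δ ^ (-ε) := by
    apply Real.rpow_le_rpow_of_nonpos hδ (by linarith) (by linarith)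
  have h2δ' : (2 * δ) ^ (-((c - 1) * (d : ℝ))) ≤ δ ^ (-((c - 1) * (d : ℝ))) := by
    apply Real.rpow_le_rpow_of_nonpos hδ (by linarith)
    have : 0 ≤ (c - 1) * (d : ℝ) := mul_nonneg (by linarith) hd0.le
    linarith
  have hLle : L ≤ C * (δ ^ (-ε) * δ ^ (-((c - 1) * (d : ℝ)))) := by
    rw [hL, mul_assoc]
    gcongr
  rw [hJ, ← ENNReal.ofReal_mul (by positivity),
    ENNReal.ofReal_rpow_of_nonneg (by positivity) (by positivity),
    ENNReal.ofReal_rpow_of_nonneg (by positivity) h1p, ← ENNReal.ofReal_mul (by positivity),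
    ← ENNReal.ofReal_mul (by positivity), ← ENNReal.ofReal_mul (by positivity),
    ENNReal.ofReal_le_ofReal_iff (by positivity)] at hmain
  have hδd : 0 < δ ^ d := by positivity
  set X : ℝ := δ ^ (-ε) * δ ^ (-((c - 1) * (d : ℝ))) with hX
  have hX0 : 0 ≤ X := by positivity
  have hfin : J ≤ B * X ^ (1 / r) * J ^ (c / r) *
      ((Fintype.card ι : ℝ) * δ ^ d) ^ (1 - 1 / r) := by
    have h3 : κ * (δ / 4) ^ d * J ≤ V * δ ^ d * (M * ((C * X * J ^ c) ^ (1 / r) *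
        (C1 * ((Fintype.card ι : ℝ) * δ ^ d)) ^ (1 - 1 / r))) := by
      refine hmain.trans ?_
      gcongr
    rw [Real.mul_rpow (by positivity) (by positivity), Real.mul_rpow hC hX0,
      Real.mul_rpow hC1.le (by positivity), ← Real.rpow_mul hJ0, mul_one_div] at h3
    have h4 : κ * (δ / 4) ^ d * J = (κ * δ ^ d / 4 ^ d) * J := by rw [div_pow]; ring
    rw [h4] at h3
    have h5 : 0 < κ * δ ^ d / 4 ^ d := by positivity
    rw [← le_div_iff₀' h5] at h3
    refine h3.trans (le_of_eq ?_)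
    rw [hB]
    field_simp
  have hsol := solve2 hJ0 (by positivity) hX0 (by positivity) hc0 hd0 hfin
  rw [hJ]
  apply ENNReal.ofReal_le_ofReal
  refine hsol.trans (le_of_eq ?_)
  rw [mul_assoc]
  congr 1
  have hN0 : (0 : ℝ) ≤ Fintype.card ι := Nat.cast_nonneg _
  rw [hX, ← Real.rpow_add hδ, ← Real.rpow_mul hδ.le, Real.mul_rpow hN0 hδd.le,
    ← Real.rpow_natCast δ d, ← Real.rpow_mul hδ.le]
  have e1 : ((d : ℝ) + c - 1) / d = 1 + c / d - 1 / d := by field_simp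
  rw [e1]
  have e2 : δ ^ (-(ε / d)) * (δ ^ (d : ℝ) * (Fintype.card ι : ℝ) ^ (1 + c / (d : ℝ) - 1 / d)) =
      (δ ^ (-(ε / d)) * δ ^ (d : ℝ)) * (Fintype.card ι : ℝ) ^ (1 + c / (d : ℝ) - 1 / d) := by ring
  rw [e2, ← Real.rpow_add hδ]
  have e3 : δ ^ ((-ε + -((c - 1) * (d : ℝ))) * (1 / (d : ℝ))) *
      ((Fintype.card ι : ℝ) ^ (1 + c / (d : ℝ) - 1 / d) * δ ^ ((d : ℝ) * (1 + c / (d : ℝ) - 1 / d))) =
      (δ ^ ((-ε + -((c - 1) * (d : ℝ))) * (1 / (d : ℝ))) * δ ^ ((d : ℝ) * (1 + c / (d : ℝ) - 1 / d))) *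
        (Fintype.card ι : ℝ) ^ (1 + c / (d : ℝ) - 1 / d) := by ring
  rw [e3, ← Real.rpow_add hδ]
  congr 2
  field_simp
  ring

end Pool.Agent.X91.KT
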