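import Pool.Agent.X91.KT.LR

set_option autoImplicit false

/-!
Loss removal for the Kakeya maximal function: the equivalences.
-/

open MeasureTheory Set Metric
open scoped ENNReal NNReal

namespace Pool.Agent.X91.KT

open Pool.Agent.Y254 (mult mult_meas mult_le mult_ne_top mult_zero_or lint_mult vol_tube Cv Cv_pos)
open Pool.Agent.W46.HM (kmax)
open Pool.Agent.Y244.HM (WeakP StrongP strongP)
open Pool.Agent.Y244.WR (TubeQ weakQ)
open Pool.Agent.Y254.EL (sg cap_lower int_le_kmax triv_bound card_dirs EuL EuF euF_of_euL euL_of_euF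
  kmax_pow crit_of_sub)

variable {d : ℕ}

/-- Weak type estimates with a loss imply the tube inequality with a loss. -/
theorem euL_of_WK (hd : 1 ≤ d) {c : ℝ} (hc : 1 ≤ c)
    (h : ∀ ε : ℝ, 0 < ε → ∃ C : ℝ, 0 ≤ C ∧ WK d c ε C) (ε : ℝ)
    (hε : 0 < ε) : ∃ C : ℝ, 0 ≤ C ∧ EuL d (1 + c / (d : ℝ)) ε C := by
  have hd0 : (0 : ℝ) < d := by exact_mod_cast hd
  have hc0 : 0 < c := by linarith
  have hp0 : 0 < 1 / (d : ℝ) := by positivity
  have hcd : 1 / (d : ℝ) ≤ c / d := by gcongr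
  have hCv := Cv_pos (d + 1)
  obtain ⟨C, hC, hK⟩ := h (ε * d) (by positivity)
  obtain ⟨C', hC', hs⟩ := dual_weak hd hc (by positivity) hC hK
  set K : ℝ := (20 * ((d : ℝ) + 1)) ^ (d + 1) with hKd
  refine ⟨C' + K ^ (1 / (d : ℝ)) * (Cv (d + 1) * 2), by positivity, ?_⟩
  intro δ hδ hδ1 ι _ a e he hsep
  have hδε : 1 ≤ δ ^ (-ε) := Real.one_le_rpow_of_pos_of_le_one_of_nonpos hδ hδ1.le (by linarith)
  have hN0 : (0 : ℝ) ≤ Fintype.card ι := Nat.cast_nonneg _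
  rcases le_or_gt δ (1 / 5) with h5 | h5
  · refine (hs δ hδ h5 ι a e he hsep).trans (ENNReal.ofReal_le_ofReal ?_)
    have e1 : ε * (d : ℝ) / d = ε := by field_simp
    rw [e1]
    have h1 : 0 ≤ δ ^ (-ε) * (δ ^ d * (Fintype.card ι : ℝ) ^ (1 + c / (d : ℝ) - 1 / d)) := by
      positivity
    have h2 : 0 ≤ K ^ (1 / (d : ℝ)) * (Cv (d + 1) * 2) := by positivity
    nlinarith
  · refine (triv_bound (q := 1 + c / (d : ℝ)) (by linarith) hδ hδ1 a e he).trans
      (ENNReal.ofReal_le_ofReal ?_)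
    rcases hN0.eq_or_lt with hN | hN
    · rw [← hN]
      simp only [zero_mul, mul_zero]
      positivity
    have hcard := card_dirs hδ hδ1 e he hsep
    have hcK : (Fintype.card ι : ℝ) ≤ K := by
      refine hcard.trans ?_
      rw [hKd]
      gcongr
      rw [div_le_iff₀ hδ]
      nlinarith
    have h1 : (Fintype.card ι : ℝ) ^ (1 / (d : ℝ)) ≤ K ^ (1 / (d : ℝ)) := by gcongr
    have e2 : (Fintype.card ι : ℝ) ^ (1 + c / (d : ℝ) - 1) * (Fintype.card ι : ℝ) =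
        (Fintype.card ι : ℝ) ^ (1 / (d : ℝ)) *
          (Fintype.card ι : ℝ) ^ (1 + c / (d : ℝ) - 1 / (d : ℝ)) := by
      rw [← Real.rpow_add hN]
      nth_rewrite 2 [← Real.rpow_one (Fintype.card ι : ℝ)]
      rw [← Real.rpow_add hN]
      congr 1
      ring
    calc (Fintype.card ι : ℝ) ^ (1 + c / (d : ℝ) - 1) *
          ((Fintype.card ι : ℝ) * (Cv (d + 1) * 2 * δ ^ d))
        = ((Fintype.card ι : ℝ) ^ (1 + c / (d : ℝ) - 1) * (Fintype.card ι : ℝ)) *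
          (Cv (d + 1) * 2 * δ ^ d) := by ring
      _ = (Fintype.card ι : ℝ) ^ (1 / (d : ℝ)) * (Cv (d + 1) * 2) *
          (1 * (δ ^ d * (Fintype.card ι : ℝ) ^ (1 + c / (d : ℝ) - 1 / (d : ℝ)))) := by
          rw [e2]; ring
      _ ≤ K ^ (1 / (d : ℝ)) * (Cv (d + 1) * 2) *
          (δ ^ (-ε) * (δ ^ d * (Fintype.card ι : ℝ) ^ (1 + c / (d : ℝ) - 1 / (d : ℝ)))) := by
          gcongr
      _ ≤ (C' + K ^ (1 / (d : ℝ)) * (Cv (d + 1) * 2)) *
          (δ ^ (-ε) * (δ ^ d * (Fintype.card ι : ℝ) ^ (1 + c / (d : ℝ) - 1 / (d : ℝ)))) := by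
          gcongr
          linarith

theorem weakP_of_euF (hd : 2 ≤ d) {c : ℝ} (hc : 1 ≤ c) {C : ℝ} (hC : 0 < C)
    (hF : EuF d (1 + c / d) C) : WeakP d c := by
  have hT : TubeQ d (1 + c / d) := by
    refine ⟨C, hC, ?_⟩
    intro δ hδ hδ1 ι _ a e he hsep
    have h2 := hF δ hδ hδ1 ι a e he hsep
    have e1 : C * δ ^ (d : ℝ) * (Fintype.card ι : ℝ) ^ (1 + c / (d : ℝ) - 1 / (d : ℝ)) =
        C * (δ ^ d * (Fintype.card ι : ℝ) ^ (1 + c / (d : ℝ) - 1 / (d : ℝ))) := by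
      rw [Real.rpow_natCast]; ring
    rw [e1]
    exact h2
  exact weakQ (by omega) (by linarith) hT Pool.Agent.W131.HM.CAP Pool.Agent.W131.HM.VOL

/-- Weak type estimates without loss for larger slopes imply the estimate with a loss. -/
theorem WK_of_weakP (hd : 1 ≤ d) {c0 : ℝ} (hc0 : 1 ≤ c0) (h : ∀ c : ℝ, c0 < c → WeakP d c) (ε : ℝ)
    (hε : 0 < ε) : ∃ C : ℝ, 0 < C ∧ ∀ δ : ℝ, 0 < δ → δ < 1 →
    ∀ f : EuclideanSpace ℝ (Fin (d + 1)) → ℝ≥0∞, AEMeasurable f volume →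
    ∀ l : ℝ, 0 < l → sg d {e | ENNReal.ofReal l < kmax δ f (e : EuclideanSpace ℝ (Fin (d + 1)))} ≤
      ENNReal.ofReal (C * δ ^ (-ε) * δ ^ (-((c0 - 1) * (d : ℝ))) * l ^ (-((d : ℝ) + c0))) *
        (∫⁻ y, f y ^ (1 + (d : ℝ) / c0)) ^ c0 := by
  have hd0 : (0 : ℝ) < d := by exact_mod_cast hd
  have hc00 : 0 < c0 := by linarith
  set c : ℝ := c0 + ε / d with hc
  have hcc : c0 < c := by
    have : 0 < ε / (d : ℝ) := by positivity
    linarith
  have hcpos : 0 < c := by linarith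
  obtain ⟨C, hC, hw⟩ := h c hcc
  set p : ℝ := 1 + (d : ℝ) / c with hp
  set p0 : ℝ := 1 + (d : ℝ) / c0 with hp0
  have hppos : 0 < p := by positivity
  have hp0pos : 0 < p0 := by positivity
  have hpp : p < p0 := by
    have : (d : ℝ) / c < (d : ℝ) / c0 := div_lt_div_of_pos_left hd0 hc00 hcc
    linarith
  set ρ : ℝ := p0 / p with hρ
  have hρ1 : 1 < ρ := by rw [hρ, lt_div_iff₀ hppos]; linarith
  have hρp : ρ * p = p0 := by rw [hρ]; field_simp
  have hpc : p * c = (d : ℝ) + c := by rw [hp]; field_simp; ring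
  have hpc0 : p0 * c0 = (d : ℝ) + c0 := by rw [hp0]; field_simp; ring
  set s : ℝ := (sg d univ).toReal with hs
  have hs0 : 0 ≤ s := ENNReal.toReal_nonneg
  have hst : sg d univ = ENNReal.ofReal s := (ENNReal.ofReal_toReal (measure_ne_top _ _)).symm
  refine ⟨C + s, by positivity, ?_⟩
  intro δ hδ hδ1 f hf l hl
  set X : ℝ≥0∞ := ∫⁻ y, f y ^ p0 with hX
  have hδε : 1 ≤ δ ^ (-ε) := Real.one_le_rpow_of_pos_of_le_one_of_nonpos hδ hδ1.le (by linarith)
  have hδc : 1 ≤ δ ^ (-((c0 - 1) * (d : ℝ))) :=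
    Real.one_le_rpow_of_pos_of_le_one_of_nonpos hδ hδ1.le (by
      have : 0 ≤ (c0 - 1) * (d : ℝ) := mul_nonneg (by linarith) hd0.le
      linarith)
  rcases le_or_gt X (ENNReal.ofReal (l ^ p0)) with hXl | hXl
  · have hsub : {e : sphere (0 : EuclideanSpace ℝ (Fin (d + 1))) 1 | ENNReal.ofReal l <
        kmax δ f (e : EuclideanSpace ℝ (Fin (d + 1)))} ⊆
        {e : sphere (0 : EuclideanSpace ℝ (Fin (d + 1))) 1 | ENNReal.ofReal (l ^ ρ) <
          kmax δ (fun x => f x ^ ρ) (e : EuclideanSpace ℝ (Fin (d + 1)))} := by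
      intro e he
      simp only [mem_ofPred_eq] at he ⊢
      refine lt_of_lt_of_le ?_ (kmax_pow hδ hδ1 (by simp) f hρ1)
      rw [← ENNReal.ofReal_rpow_of_pos hl]
      exact ENNReal.rpow_lt_rpow he (by linarith)
    refine (measure_mono hsub).trans ((hw δ hδ hδ1 _ (hf.pow_const _) (l ^ ρ)
      (by positivity)).trans ?_)
    have e1 : ∫⁻ y, (f y ^ ρ) ^ p = X := by
      rw [hX]
      refine lintegral_congr fun y => ?_
      rw [← ENNReal.rpow_mul, hρp]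
    rw [e1]
    have e2 : X ^ c = X ^ c0 * X ^ (c - c0) := by
      rw [← ENNReal.rpow_add_of_nonneg _ _ hc00.le (by linarith)]
      congr 1
      ring
    have e3 : X ^ (c - c0) ≤ ENNReal.ofReal (l ^ (p0 * (c - c0))) := by
      calc X ^ (c - c0) ≤ ENNReal.ofReal (l ^ p0) ^ (c - c0) :=
            ENNReal.rpow_le_rpow hXl (by linarith)
        _ = _ := by
            rw [ENNReal.ofReal_rpow_of_pos (by positivity), ← Real.rpow_mul hl.le]
    rw [e2]
    calc ENNReal.ofReal (C * δ ^ (-((c - 1) * (d : ℝ))) * (l ^ ρ) ^ (-((d : ℝ) + c))) *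
          (X ^ c0 * X ^ (c - c0))
        ≤ ENNReal.ofReal (C * δ ^ (-((c - 1) * (d : ℝ))) * (l ^ ρ) ^ (-((d : ℝ) + c))) *
          (X ^ c0 * ENNReal.ofReal (l ^ (p0 * (c - c0)))) := by gcongr
      _ = ENNReal.ofReal (C * δ ^ (-((c - 1) * (d : ℝ))) * (l ^ ρ) ^ (-((d : ℝ) + c)) *
          l ^ (p0 * (c - c0))) * X ^ c0 := by
          rw [ENNReal.ofReal_mul (q := l ^ (p0 * (c - c0))) (by positivity)]
          ring
      _ = ENNReal.ofReal (C * δ ^ (-ε) * δ ^ (-((c0 - 1) * (d : ℝ))) * l ^ (-((d : ℝ) + c0))) *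
          X ^ c0 := by
          congr 2
          rw [← Real.rpow_mul hl.le]
          have e4 : δ ^ (-((c - 1) * (d : ℝ))) = δ ^ (-ε) * δ ^ (-((c0 - 1) * (d : ℝ))) := by
            rw [← Real.rpow_add hδ]
            congr 1
            rw [hc]
            field_simp
            ring
          have e5 : l ^ (-((d : ℝ) + c0)) = l ^ (ρ * -((d : ℝ) + c)) * l ^ (p0 * (c - c0)) := by
            rw [← Real.rpow_add hl]
            congr 1
            have : ρ * ((d : ℝ) + c) = p0 * c := by rw [← hpc, ← mul_assoc, hρp]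
            rw [mul_neg, this, ← hpc0]
            ring
          rw [e4, e5]
          ring
      _ ≤ _ := by
          gcongr
          linarith
  · calc sg d {e | ENNReal.ofReal l < kmax δ f (e : EuclideanSpace ℝ (Fin (d + 1)))}
        ≤ sg d univ := measure_mono (subset_univ _)
      _ = ENNReal.ofReal (s * 1 * 1 * l ^ (-((d : ℝ) + c0)) * l ^ (p0 * c0)) := by
          rw [hst, mul_assoc, ← Real.rpow_add hl, hpc0]
          simp
      _ = ENNReal.ofReal (s * 1 * 1 * l ^ (-((d : ℝ) + c0))) * ENNReal.ofReal (l ^ p0) ^ c0 := by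
          rw [ENNReal.ofReal_mul (q := l ^ (p0 * c0)) (by positivity),
            ENNReal.ofReal_rpow_of_pos (by positivity), ← Real.rpow_mul hl.le]
      _ ≤ ENNReal.ofReal ((C + s) * δ ^ (-ε) * δ ^ (-((c0 - 1) * (d : ℝ))) *
          l ^ (-((d : ℝ) + c0))) * X ^ c0 := by
          gcongr
          linarith

theorem euF_of_euL' (hd : 2 ≤ d) {c0 c : ℝ} (hc0 : 1 ≤ c0) (hc : c0 < c)
    (h : ∀ ε : ℝ, 0 < ε → ∃ C : ℝ, 0 ≤ C ∧ EuL d (1 + c0 / d) ε C) :
    ∃ C : ℝ, 0 < C ∧ EuF d (1 + c / d) C := by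
  have hd0 : (0 : ℝ) < d := by
    have : 0 < d := by omega
    exact_mod_cast this
  refine euF_of_euL hd (q0 := 1 + c0 / d) ?_ (by gcongr) h
  gcongr

theorem euL_of_euF' (hd : 1 ≤ d) {c0 : ℝ} (hc0 : 1 ≤ c0)
    (h : ∀ c : ℝ, c0 < c → ∃ C : ℝ, 0 < C ∧ EuF d (1 + c / d) C) (ε : ℝ) (hε : 0 < ε) :
    ∃ C : ℝ, 0 ≤ C ∧ EuL d (1 + c0 / d) ε C := by
  have hd0 : (0 : ℝ) < d := by exact_mod_cast hd
  have h1 : 0 < ε / ((d : ℝ) + 1) * d := by positivity
  obtain ⟨C, hC, hF⟩ := h (c0 + ε / ((d : ℝ) + 1) * d) (by linarith)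
  refine euL_of_euF (q0 := 1 + c0 / d) (by positivity) hε hC ?_
  have e : 1 + (c0 + ε / ((d : ℝ) + 1) * d) / d = 1 + c0 / d + ε / (d + 1) := by
    field_simp
    ring
  rw [← e]
  exact hF

end Pool.Agent.X91.KT
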