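import Pool.Agent.Y249.AC.Src
import Pool.Agent.Y249.AC.SrcH
import Pool.Agent.Y244.WR.Max
import Pool.Agent.TH426.Kt.Main

set_option autoImplicit false

/-!
Transfer of the Kakeya maximal estimates from the sphere to the families of lines over a ball.
-/

open MeasureTheory Set ENNReal NNReal Metric Filter

namespace Pool.Agent.X91.KT

open Pool.Agent.H803R2.Kak Pool.Agent.H803R2.KakFTO Pool.Agent.TH426.Kt
open scoped Pointwise

variable {d : ℕ}

theorem norm_dir' (v : Vec d) : ‖(dir v : Space d)‖ = 1 := by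
  have h1 : ‖(WithLp.toLp 2 (v, (1:ℝ)) : Space d)‖ = √(1 + ‖v‖ ^ 2) := by
    rw [WithLp.prod_norm_eq_of_L2]
    simp [add_comm]
  unfold dir
  rw [norm_smul, h1, norm_inv, Real.norm_eq_abs, abs_of_nonneg (Real.sqrt_nonneg _)]
  exact inv_mul_cancel₀ (by positivity)

theorem dir_injective : Function.Injective (dir : Vec d → Space d) := by
  intro v w h
  unfold dir at h
  have h1 := congrArg (fun x : Space d => x.snd) h
  have h2 := congrArg (fun x : Space d => x.fst) h
  simp at h1 h2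
  rw [h1] at h2
  have h3 : (√(1 + ‖w‖ ^ 2))⁻¹ ≠ 0 := by positivity
  exact smul_right_injective _ h3 h2

theorem continuous_dir' : Continuous (dir : Vec d → Space d) := by
  have h1 : Continuous fun v : Vec d => (√(1 + ‖v‖ ^ 2))⁻¹ := by
    apply Continuous.inv₀
    · fun_prop
    · intro v; positivity
  have h2 : Continuous fun v : Vec d => (WithLp.toLp 2 (v, (1:ℝ)) : Space d) :=
    (WithLp.prod_continuous_toLp 2 (Vec d) ℝ).comp (by fun_prop)
  exact h1.smul h2

/-- The direction map to the sphere of `ℝ^{d+1}`. -/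
noncomputable def phi (Ψ : Space d ≃ₗᵢ[ℝ] EuclideanSpace ℝ (Fin (d + 1))) (v : Vec d) :
    sphere (0 : EuclideanSpace ℝ (Fin (d + 1))) 1 :=
  ⟨Ψ (dir v), by simp [norm_dir']⟩

theorem phi_emb (Ψ : Space d ≃ₗᵢ[ℝ] EuclideanSpace ℝ (Fin (d + 1))) :
    MeasurableEmbedding (phi Ψ) := by
  apply Continuous.measurableEmbedding
  · exact (Ψ.continuous.comp continuous_dir').subtype_mk _
  · intro v w h
    have := congrArg Subtype.val h
    simp only [phi] at this
    exact dir_injective (Ψ.injective this)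

theorem map_le (Ψ : Space d ≃ₗᵢ[ℝ] EuclideanSpace ℝ (Fin (d + 1))) :
    Measure.map (phi Ψ) (volume.restrict (closedBall (0 : Vec d) 1)) ≤
      (2 ^ (d + 1) : ℝ≥0∞) • (volume : Measure (EuclideanSpace ℝ (Fin (d + 1)))).toSphere := by
  rw [Measure.le_iff]
  intro A hA
  rw [(phi_emb Ψ).map_apply, Measure.restrict_apply ((phi_emb Ψ).measurable hA),
    Measure.smul_apply, Measure.toSphere_apply' _ hA]
  set S : Set (Vec d) := phi Ψ ⁻¹' A ∩ closedBall 0 1 with hS
  have hSm : MeasurableSet S := ((phi_emb Ψ).measurable hA).inter measurableSet_closedBall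
  set R : Set (Vec d × ℝ) := {p | p.2 ∈ Ioo (0 : ℝ) (1 / 2) ∧ p.2⁻¹ • p.1 ∈ S} with hR
  have hRm : MeasurableSet R := by
    apply MeasurableSet.inter
    · exact measurable_snd measurableSet_Ioo
    · exact (measurable_snd.inv.smul measurable_fst) hSm
  have hmp := WithLp.volume_preserving_toLp (Vec d) ℝ
  have hsub : Ψ ∘ (WithLp.toLp 2) '' R ⊆ Ioo (0 : ℝ) 1 • ((↑) '' A :
      Set (EuclideanSpace ℝ (Fin (d + 1)))) := by
    rintro _ ⟨⟨y, t⟩, ⟨⟨ht0, ht1⟩, hy⟩, rfl⟩
    have ht : t ≠ 0 := ht0.ne'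
    set v : Vec d := t⁻¹ • y with hv
    have hyv : y = t • v := by rw [hv, smul_smul, mul_inv_cancel₀ ht, one_smul]
    have hv1 : ‖v‖ ≤ 1 := by simpa using hy.2
    have hs : 0 < √(1 + ‖v‖ ^ 2) := by positivity
    refine ⟨t * √(1 + ‖v‖ ^ 2), ⟨by positivity, ?_⟩, (phi Ψ v : EuclideanSpace ℝ (Fin (d + 1))),
      ⟨_, hy.1, rfl⟩, ?_⟩
    · have h2 : √(1 + ‖v‖ ^ 2) < 2 := by
        rw [Real.sqrt_lt' (by norm_num)]
        nlinarith [norm_nonneg v]
      nlinarith
    · simp only [phi, Function.comp]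
      rw [← map_smul]
      congr 1
      unfold dir
      rw [smul_smul, mul_assoc, mul_inv_cancel₀ hs.ne', mul_one, hyv, ← WithLp.toLp_smul]
      simp
  have hvol : volume (Ψ ∘ (WithLp.toLp 2) '' R) = volume R := by
    have h1 : MeasurePreserving (Ψ ∘ (WithLp.toLp 2 : Vec d × ℝ → Space d)) volume volume :=
      Ψ.measurePreserving.comp hmp
    have h2 : MeasurableEmbedding (Ψ ∘ (WithLp.toLp 2 : Vec d × ℝ → Space d)) :=
      Ψ.toHomeomorph.measurableEmbedding.comp
        (MeasurableEquiv.toLp 2 ((Vec d) × ℝ)).measurableEmbedding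
    have h3 := h1.measure_preimage_emb h2 (Ψ ∘ (WithLp.toLp 2) '' R)
    rw [preimage_image_eq _ h2.injective] at h3
    exact h3.symm
  have hR2 : volume R = ENNReal.ofReal ((1 / 2) ^ (d + 1) / (d + 1)) * volume S := by
    have : volume R = ∫⁻ t : ℝ, volume ((fun y => (y, t)) ⁻¹' R) := by
      rw [Measure.volume_eq_prod]
      exact Measure.prod_apply_symm hRm
    rw [this]
    have h4 : ∀ t : ℝ, volume ((fun y : Vec d => (y, t)) ⁻¹' R) =
        (Ioo (0 : ℝ) (1 / 2)).indicator (fun t => ENNReal.ofReal (t ^ d) * volume S) t := by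
      intro t
      by_cases ht : t ∈ Ioo (0 : ℝ) (1 / 2)
      · rw [indicator_of_mem ht]
        have ht0 : t ≠ 0 := ht.1.ne'
        have : (fun y : Vec d => (y, t)) ⁻¹' R = t • S := by
          ext y
          simp only [hR, mem_preimage, mem_ofPred_eq]
          rw [mem_smul_set_iff_inv_smul_mem₀ ht0]
          exact ⟨fun h => h.2, fun h => ⟨ht, h⟩⟩
        rw [this, Measure.addHaar_smul]
        simp [abs_of_pos ht.1]
      · rw [indicator_of_notMem ht]
        have : (fun y : Vec d => (y, t)) ⁻¹' R = ∅ := by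
          ext y
          simp only [hR, mem_preimage, mem_ofPred_eq, mem_empty_iff_false, iff_false]
          exact fun h => ht h.1
        rw [this, measure_empty]
    simp only [h4]
    rw [lintegral_indicator measurableSet_Ioo, lintegral_mul_const _ (by fun_prop)]
    congr 1
    rw [← ofReal_integral_eq_lintegral_ofReal]
    · congr 1
      rw [MeasureTheory.integral_Ioc_eq_integral_Ioo.symm, ← intervalIntegral.integral_of_le (by norm_num),
        integral_pow]
      simp
    · apply IntegrableOn.mono_set (t := Icc 0 (1 / 2)) _ Ioo_subset_Icc_self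
      exact (continuous_pow d).continuousOn.integrableOn_Icc
    · filter_upwards [self_mem_ae_restrict (measurableSet_Ioo (a := (0 : ℝ)) (b := 1 / 2))] with t ht
      exact pow_nonneg ht.1.le d
  have hfin : Module.finrank ℝ (EuclideanSpace ℝ (Fin (d + 1))) = d + 1 := by simp
  rw [hfin, smul_eq_mul]
  calc volume S = 2 ^ (d + 1) * (((d + 1 : ℕ) : ℝ≥0∞) *
        (ENNReal.ofReal ((1 / 2) ^ (d + 1) / (d + 1)) * volume S)) := by
        rw [← mul_assoc, ← mul_assoc]
        have : (2 ^ (d + 1) : ℝ≥0∞) * ((d + 1 : ℕ) : ℝ≥0∞) *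
            ENNReal.ofReal ((1 / 2) ^ (d + 1) / (d + 1)) = 1 := by
          have e1 : (2 ^ (d + 1) : ℝ≥0∞) = ENNReal.ofReal (2 ^ (d + 1)) := by
            rw [ENNReal.ofReal_pow (by norm_num)]; simp
          have e2 : ((d + 1 : ℕ) : ℝ≥0∞) = ENNReal.ofReal ((d : ℝ) + 1) := by
            rw [← ENNReal.ofReal_natCast]; push_cast; rfl
          rw [e1, e2, ← ENNReal.ofReal_mul (by positivity), ← ENNReal.ofReal_mul (by positivity),
            ← ENNReal.ofReal_one]
          congr 1
          field_simp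
          rw [one_div, inv_pow, mul_inv_cancel₀ (by positivity)]
        rw [this, one_mul]
    _ ≤ _ := by
        rw [← hR2, ← hvol]
        gcongr

theorem lint_le (Ψ : Space d ≃ₗᵢ[ℝ] EuclideanSpace ℝ (Fin (d + 1))) {B : Set (Vec d)}
    (hB : B ⊆ closedBall 0 1) (G : sphere (0 : EuclideanSpace ℝ (Fin (d + 1))) 1 → ℝ≥0∞) :
    ∫⁻ v in B, G (phi Ψ v) ≤ 2 ^ (d + 1) *
      ∫⁻ e, G e ∂(volume : Measure (EuclideanSpace ℝ (Fin (d + 1)))).toSphere := by
  calc ∫⁻ v in B, G (phi Ψ v) ≤ ∫⁻ v in closedBall (0 : Vec d) 1, G (phi Ψ v) :=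
        lintegral_mono_set hB
    _ = ∫⁻ e, G e ∂(Measure.map (phi Ψ) (volume.restrict (closedBall (0 : Vec d) 1))) :=
        ((phi_emb Ψ).lintegral_map G).symm
    _ ≤ ∫⁻ e, G e ∂((2 ^ (d + 1) : ℝ≥0∞) •
          (volume : Measure (EuclideanSpace ℝ (Fin (d + 1)))).toSphere) :=
        lintegral_mono' (map_le Ψ) le_rfl
    _ = _ := by rw [lintegral_smul_measure, smul_eq_mul]

end Pool.Agent.X91.KT
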